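import Pool.Agent.H252Z.SLZ.Pres

/-! Elementary matrices generate the special linear group over the integers. -/

set_option autoImplicit false

open Matrix

namespace Pool.Agent.H252Z.SLZ

variable {ι : Type} [Fintype ι] [DecidableEq ι]

abbrev SLZ (ι : Type) [DecidableEq ι] [Fintype ι] : Type := Matrix.SpecialLinearGroup ι ℤ

def tv (i j : ι) : SLZ ι :=
  if h : i ≠ j then SpecialLinearGroup.transvection h 1 else 1

theorem X_tv {i j : ι} (h : i ≠ j) (a : ℤ) : X tv i j a = SpecialLinearGroup.transvection h a := by
  unfold X tv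
  rw [dif_pos h]
  induction a using Int.induction_on with
  | zero => simp
  | succ n ih => rw [_root_.zpow_add_one, ih, SpecialLinearGroup.transvection_add]
  | pred n ih =>
    rw [_root_.zpow_sub_one, ih, SpecialLinearGroup.transvection_inv, sub_eq_add_neg,
      SpecialLinearGroup.transvection_add]

def vact (v : ι → ℤ) (g : SLZ ι) : ι → ℤ := v ᵥ* (g : Matrix ι ι ℤ)

theorem vact_one (v : ι → ℤ) : vact v 1 = v := by simp [vact]

theorem vact_mul (v : ι → ℤ) (g h : SLZ ι) : vact v (g * h) = vact (vact v g) h := by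
  simp [vact]

theorem vact_X (v : ι → ℤ) {i j : ι} (h : i ≠ j) (a : ℤ) : vact v (X tv i j a) = upd v i j a := by
  rw [X_tv h, vact, SpecialLinearGroup.transvection_coe, vecMul_add, vecMul_one]
  funext t
  rw [upd_apply, Pi.add_apply]
  split_ifs with ht
  · subst ht
    simp [vecMul, dotProduct, Matrix.single_apply, mul_comm]
  · simp [vecMul, dotProduct, Matrix.single_apply, Ne.symm ht]

theorem vact_zero (g : SLZ ι) : vact 0 g = 0 := by simp [vact]

theorem eq_one_of_vact {g : SLZ ι} (h : ∀ i, vact (Pi.single i 1) g = Pi.single i 1) : g = 1 := by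
  ext i j
  have := congrFun (h i) j
  simp only [vact, single_one_vecMul, Matrix.row_apply] at this
  rw [this]
  change _ = (1 : Matrix ι ι ℤ) i j
  rw [Matrix.one_apply, Pi.single_apply]
  simp [eq_comm]

theorem act_of_hom {H : Type} [Group H] {y : ι → ι → H} (φ : H →* SLZ ι)
    (hφ : ∀ i j, i ≠ j → φ (y i j) = tv i j) : Act y fun v g => vact v (φ g) where
  one v := by rw [map_one, vact_one]
  mul v g h := by rw [map_mul, vact_mul]
  gen v i j a hij := by
    rw [← vact_X v hij a]
    simp only [X, map_zpow, hφ i j hij]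
  zero g := vact_zero _

/-- The subgroup of column operations with source column in `T`. -/
def ER (T : Finset ι) : Subgroup (SLZ ι) :=
  Subgroup.closure {z | ∃ i j a, i ∈ T ∧ i ≠ j ∧ z = X tv i j a}

theorem x_mem_ER {T : Finset ι} {i j : ι} (hi : i ∈ T) (hij : i ≠ j) (a : ℤ) :
    X tv i j a ∈ ER T := Subgroup.subset_closure ⟨i, j, a, hi, hij, rfl⟩

theorem ER_fix {T : Finset ι} {s : SLZ ι} (hs : s ∈ ER T) (v : ι → ℤ) (hv : ∀ t ∈ T, v t = 0) :
    vact v s = v := by
  induction hs using Subgroup.closure_induction with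
  | mem x hx =>
    obtain ⟨i, j, e, hi, hij, rfl⟩ := hx
    rw [vact_X _ hij, upd_of_zero _ _ _ _ (hv i hi)]
  | one => rw [vact_one]
  | mul a b _ _ ha hb => rw [vact_mul, ha, hb]
  | inv a _ ha => conv_lhs => rw [← ha, ← vact_mul, mul_inv_cancel, vact_one]

theorem reduce (T : Finset ι) (m : ℕ) : ∀ v : ι → ℤ, Nm v ≤ m →
    (∀ d : ℤ, (∀ t ∈ T, d ∣ v t) → IsUnit d) →
    ∃ g ∈ ER T, ∃ i ∈ T, ∃ e : ℤ, (e = 1 ∨ e = -1) ∧ vact v g = Pi.single i e := by
  induction m with
  | zero =>
    intro v hv hu
    exfalso
    have h0 : ∀ t, v t = 0 := fun t => by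
      simpa using (Finset.sum_eq_zero_iff.1 (Nat.le_zero.1 hv)) t (Finset.mem_univ t)
    simpa using hu 0 fun t _ => by rw [h0]
  | succ m ih =>
    intro v hv hu
    by_cases hred : ∃ i ∈ T, ∃ j, i ≠ j ∧ v i ≠ 0 ∧ (v i).natAbs ≤ (v j).natAbs
    · obtain ⟨i, hi, j, hij, h0, hle⟩ := hred
      obtain ⟨a, ha⟩ : ∃ a : ℤ, (v j + a * v i).natAbs < (v j).natAbs := by
        by_cases h : (v j + 1 * v i).natAbs < (v j).natAbs
        · exact ⟨1, h⟩
        · exact ⟨-1, by omega⟩
      have h1 := nm_upd v i j a
      obtain ⟨g, hg, h2⟩ := ih (upd v i j a) (by omega) (by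
        intro d hd
        apply hu d
        intro t ht
        have h3 := hd t ht
        have h4 := hd i hi
        rw [upd_apply, if_neg hij] at h4
        rw [upd_apply] at h3
        split_ifs at h3 with h5
        · rw [h5]
          exact (dvd_add_left (h4.mul_left a)).1 h3
        · exact h3)
      exact ⟨X tv i j a * g, mul_mem (x_mem_ER hi hij a) hg, by rwa [vact_mul, vact_X _ hij]⟩
    · push Not at hred
      obtain ⟨i, hi, h0⟩ : ∃ i ∈ T, v i ≠ 0 := by
        by_contra hc
        push Not at hc
        simpa using hu 0 fun t ht => by rw [hc t ht]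
      have h1 : IsUnit (v i) := by
        apply hu
        intro t ht
        by_cases hti : t = i
        · rw [hti]
        · by_cases h2 : v t = 0
          · rw [h2]; exact dvd_zero _
          · have h3 := hred i hi t (Ne.symm hti) h0
            have h4 := hred t ht i hti h2
            omega
      have h2 := Int.isUnit_iff.1 h1
      refine ⟨1, one_mem _, i, hi, v i, h2, ?_⟩
      rw [vact_one]
      funext t
      by_cases hti : t = i
      · rw [hti]; simp
      · have h3 := hred i hi t (Ne.symm hti) h0
        rw [Pi.single_eq_of_ne hti]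
        omega

theorem move {T : Finset ι} {n m i : ι} (hn : n ∈ T) (hm : m ∈ T) (hmn : m ≠ n) (hi : i ∈ T)
    {e : ℤ} (he : e = 1 ∨ e = -1) : ∃ g ∈ ER T, vact (Pi.single i e) g = Pi.single n 1 := by
  by_cases hin : i = n
  · subst hin
    rcases he with rfl | rfl
    · exact ⟨1, one_mem _, vact_one _⟩
    · refine ⟨X tv i m (-1) * X tv m i 2 * X tv i m (-1), mul_mem (mul_mem
        (x_mem_ER hi hmn.symm _) (x_mem_ER hm hmn _)) (x_mem_ER hi hmn.symm _), ?_⟩
      rw [vact_mul, vact_mul, vact_X _ hmn.symm, vact_X _ hmn, vact_X _ hmn.symm]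
      funext t
      by_cases h1 : t = m
      · simp [upd_apply, h1, hmn, hmn.symm]
      · by_cases h2 : t = i
        · simp [upd_apply, h2, hmn, hmn.symm]
        · simp [upd_apply, h1, h2]
  · refine ⟨X tv i n e * X tv n i (-e), mul_mem (x_mem_ER hi hin _) (x_mem_ER hn (Ne.symm hin) _), ?_⟩
    rw [vact_mul, vact_X _ hin, vact_X _ (Ne.symm hin)]
    funext t
    by_cases h1 : t = i
    · rcases he with rfl | rfl <;> simp [upd_apply, h1, hin, Ne.symm hin]
    · by_cases h2 : t = n
      · rcases he with rfl | rfl <;> simp [upd_apply, h2, hin, Ne.symm hin]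
      · simp [upd_apply, h1, h2]

theorem ER_mono {T T' : Finset ι} (h : T ⊆ T') : ER T ≤ ER T' := by
  apply Subgroup.closure_mono
  rintro z ⟨i, j, a, hi, hij, rfl⟩
  exact ⟨i, j, a, h hi, hij, rfl⟩

theorem mem_ER (T : Finset ι) : ∀ A : SLZ ι,
    (∀ k ∉ T, vact (Pi.single k 1) A = Pi.single k 1) → A ∈ ER T := by
  induction T using Finset.induction_on with
  | empty =>
    intro A hA
    rw [eq_one_of_vact fun i => hA i (Finset.notMem_empty i)]
    exact one_mem _
  | insert n T hn ih =>
    intro A hA
    have hA' : ∀ k ∉ insert n T, vact (Pi.single k 1) A⁻¹ = Pi.single k 1 := fun k hk => by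
      conv_lhs => rw [← hA k hk, ← vact_mul, mul_inv_cancel, vact_one]
    have hu : ∀ d : ℤ, (∀ t ∈ insert n T, d ∣ vact (Pi.single n 1) A t) → IsUnit d := by
      intro d hd
      apply isUnit_of_dvd_one
      have h1 : vact (vact (Pi.single n 1) A) A⁻¹ n = 1 := by
        rw [← vact_mul, mul_inv_cancel, vact_one]; simp
      rw [← h1, vact, vecMul, dotProduct]
      apply Finset.dvd_sum
      intro t _
      by_cases ht : t ∈ insert n T
      · exact (hd t ht).mul_right _
      · have h2 := congrFun (hA' t ht) n
        simp only [vact, single_one_vecMul, Matrix.row_apply] at h2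
        have h3 : n ≠ t := fun h => ht (h ▸ Finset.mem_insert_self _ _)
        rw [Pi.single_eq_of_ne h3] at h2
        simp only [h2, mul_zero, dvd_zero]
    obtain ⟨g, hg, i, hi, e, he, h1⟩ := reduce (insert n T) _ _ le_rfl hu
    have hfix : ∀ g' ∈ ER (insert n T), ∀ k ∉ insert n T,
        vact (Pi.single k 1) (A * g') = Pi.single k 1 := fun g' hg' k hk => by
      rw [vact_mul, hA k hk, ER_fix hg']
      intro t ht
      exact Pi.single_eq_of_ne (fun h : t = k => hk (h ▸ ht)) _
    obtain ⟨g', hg', h2⟩ : ∃ g' ∈ ER (insert n T),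
        vact (Pi.single n 1) (A * g') = Pi.single n 1 := by
      rcases T.eq_empty_or_nonempty with rfl | ⟨m, hm⟩
      · have hin : i = n := by simpa using hi
        subst hin
        refine ⟨g, hg, ?_⟩
        rw [vact_mul, h1]
        rcases he with rfl | rfl
        · rfl
        · exfalso
          have h3 : ((A * g : SLZ ι) : Matrix ι ι ℤ) = diagonal (Function.update 1 i (-1)) := by
            ext k l
            by_cases hk : k = i
            · subst hk
              have := congrFun h1 l
              rw [← vact_mul] at this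
              simp only [vact, single_one_vecMul, Matrix.row_apply] at this
              rw [this, diagonal_apply, Pi.single_apply]
              simp [eq_comm]
            · have := congrFun (hfix g hg k (by simpa using hk)) l
              simp only [vact, single_one_vecMul, Matrix.row_apply] at this
              rw [this, diagonal_apply, Pi.single_apply, Function.update_of_ne hk]
              simp [eq_comm]
          have h4 := (A * g).det_coe
          rw [h3, det_diagonal, Finset.prod_update_of_mem (Finset.mem_univ _)] at h4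
          simp at h4
      · obtain ⟨g', hg', h2⟩ := move (Finset.mem_insert_self n T) (Finset.mem_insert_of_mem hm)
          (fun h : m = n => hn (h ▸ hm)) hi he
        exact ⟨g * g', mul_mem hg hg', by rw [← mul_assoc, vact_mul, vact_mul, h1, h2]⟩
    have h3 : A * g' ∈ ER T := by
      apply ih
      intro k hk
      by_cases hkn : k = n
      · rw [hkn, h2]
      · exact hfix g' hg' k (by simp [hk, hkn])
    have h4 := mul_mem (ER_mono (Finset.subset_insert n T) h3) (inv_mem hg')
    rwa [mul_inv_cancel_right] at h4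

theorem gen_top (K : Subgroup (SLZ ι)) (hK : ∀ i j, i ≠ j → tv i j ∈ K) : K = ⊤ := by
  rw [eq_top_iff]
  intro A _
  have h := mem_ER Finset.univ A fun k hk => absurd (Finset.mem_univ k) hk
  refine (Subgroup.closure_le K).2 ?_ h
  rintro z ⟨i, j, a, -, hij, rfl⟩
  exact zpow_mem (hK i j hij) a

/-- A homomorphism onto the special linear group with Steinberg lifts splits. -/
theorem exists_section {H : Type} [Group H] {y : ι → ι → H} (hS : StSys y) (φ : H →* SLZ ι)
    (hφ : ∀ i j, i ≠ j → φ (y i j) = tv i j) : ∃ σ : SLZ ι →* H, ∀ A, φ (σ A) = A := by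
  let ψ : ST y Finset.univ →* SLZ ι := φ.comp (ST y Finset.univ).subtype
  have hinj : Function.Injective ψ := by
    rw [injective_iff_map_eq_one]
    intro c hc
    apply Subtype.ext
    refine presentation hS (act_of_hom φ hφ) Finset.univ c c.2 fun v => ?_
    have : φ c = 1 := hc
    simp only [this, vact_one]
  have hsurj : Function.Surjective ψ := by
    rw [← MonoidHom.range_eq_top]
    apply gen_top
    intro i j hij
    refine ⟨⟨X y i j 1, x_mem_ST (Finset.mem_univ _) (Finset.mem_univ _) hij (Or.inl rfl)⟩, ?_⟩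
    simp [ψ, X, hφ i j hij]
  let e := MulEquiv.ofBijective ψ ⟨hinj, hsurj⟩
  exact ⟨(ST y Finset.univ).subtype.comp e.symm.toMonoidHom, fun A => e.apply_symm_apply A⟩

end Pool.Agent.H252Z.SLZ
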