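import Pool.Agent.H252Z.SLZ.Rep

/-! Extensions of `SL(5, ℤ)` by a five-dimensional rational vector space split. -/

set_option autoImplicit false

namespace Pool.Agent.H252Z.SLZ

open Multiplicative

variable {V : Type} [AddCommGroup V] [Module ℚ V] {E : Type} [Group E]

structure IsExt (φ : E →* G5) (τ : Multiplicative V →* E) (R : G5 →* Module.End ℚ V) : Prop where
  surj : Function.Surjective φ
  inj : Function.Injective τ
  ker : ∀ x, φ x = 1 ↔ ∃ v, τ (ofAdd v) = x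
  conj : ∀ x v, x * τ (ofAdd v) * x⁻¹ = τ (ofAdd (R (φ x) v))

variable {φ : E →* G5} {τ : Multiplicative V →* E} {R : G5 →* Module.End ℚ V}

namespace IsExt

variable (h : IsExt φ τ R)
include h

theorem diff {x z : E} (hxz : φ x = φ z) : ∃ v, z = τ (ofAdd v) * x := by
  obtain ⟨v, hv⟩ := (h.ker (z * x⁻¹)).1 (by simp [hxz])
  exact ⟨v, by rw [hv, inv_mul_cancel_right]⟩

theorem phi_tau (v : V) : φ (τ (ofAdd v)) = 1 := (h.ker _).2 ⟨v, rfl⟩

theorem mid_exists {x z : E} (hxz : φ x = φ z) : ∃ m, φ m = φ x ∧ m * x⁻¹ * m = z := by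
  obtain ⟨v, rfl⟩ := h.diff hxz
  refine ⟨τ (ofAdd ((1 / 2 : ℚ) • v)) * x, by simp [h.phi_tau], ?_⟩
  rw [mul_inv_cancel_right, ← mul_assoc, ← map_mul, ← ofAdd_add, ← add_smul]
  norm_num

theorem mid_unique {x m m' : E} (h1 : φ m = φ x) (h2 : φ m' = φ x)
    (h3 : m * x⁻¹ * m = m' * x⁻¹ * m') : m = m' := by
  obtain ⟨v, rfl⟩ := h.diff h1.symm
  obtain ⟨v', rfl⟩ := h.diff h2.symm
  rw [mul_inv_cancel_right, mul_inv_cancel_right, ← mul_assoc, ← mul_assoc, ← map_mul τ, ← map_mul τ,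
    ← ofAdd_add, ← ofAdd_add] at h3
  have h4 : v + v = v' + v' := ofAdd.injective (h.inj (mul_right_cancel h3))
  rw [← two_smul ℚ, ← two_smul ℚ] at h4
  rw [smul_right_injective V (by norm_num : (2 : ℚ) ≠ 0) h4]

theorem fixed {κ : Type} (γ : G5) (F : κ → E → E) (s : Finset κ)
    (h1 : ∀ k ∈ s, ∀ x, φ x = γ → φ (F k x) = γ) (h2 : ∀ k ∈ s, ∀ x, F k (F k x) = x)
    (h3 : ∀ k ∈ s, ∀ l ∈ s, ∀ x, F k (F l x) = F l (F k x))
    (h4 : ∀ k ∈ s, ∀ m x, F k (m * x⁻¹ * m) = F k m * (F k x)⁻¹ * F k m) :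
    ∃ x, φ x = γ ∧ ∀ k ∈ s, F k x = x := by
  classical
  induction s using Finset.induction_on with
  | empty =>
    obtain ⟨x, hx⟩ := h.surj γ
    exact ⟨x, hx, by simp⟩
  | insert k s _ ih =>
    have hk := Finset.mem_insert_self k s
    have hs : ∀ l ∈ s, l ∈ insert k s := fun l hl => Finset.mem_insert_of_mem hl
    obtain ⟨x, hx, hfix⟩ := ih (fun l hl => h1 l (hs l hl)) (fun l hl => h2 l (hs l hl))
      (fun l hl l' hl' => h3 l (hs l hl) l' (hs l' hl')) (fun l hl => h4 l (hs l hl))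
    obtain ⟨m, hm, hm'⟩ := h.mid_exists (x := x) (z := F k x) (by rw [hx, h1 k hk x hx])
    have hmγ : φ m = γ := hm.trans hx
    refine ⟨m, hmγ, fun l hl => ?_⟩
    rcases Finset.mem_insert.1 hl with rfl | hl'
    · have h5 := h4 l hl m x
      rw [hm', h2 l hl] at h5
      refine h.mid_unique (x := F l x) (by rw [h1 l hl m hmγ, h1 l hl x hx])
        (by rw [hmγ, h1 l hl x hx]) ?_
      rw [← h5, ← hm']
      group
    · have h5 := h4 l hl m x
      rw [hm', h3 l hl k hk, hfix l hl'] at h5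
      exact h.mid_unique (x := x) (by rw [h1 l hl m hmγ, hx]) hm (by rw [← h5, hm'])

theorem exists_t : ∃ t : Fin 5 → E, (∀ i, φ (t i) = tt i) ∧ (∀ i, t i * t i = 1) ∧
    ∀ i j, t i * t j = t j * t i := by
  have key : ∀ s : Finset (Fin 5), ∃ t : Fin 5 → E, (∀ i ∈ s, φ (t i) = tt i) ∧
      (∀ i, t i * t i = 1) ∧ ∀ i j, t i * t j = t j * t i ∧ (i ∉ s → t i = 1) := by
    intro s
    induction s using Finset.induction_on with
    | empty => exact ⟨fun _ => 1, by simp, by simp, by simp⟩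
    | insert k s hk ih =>
      obtain ⟨t, h1, h2, h3⟩ := ih
      have hinv : ∀ i, (t i)⁻¹ = t i := fun i => inv_eq_of_mul_eq_one_right (h2 i)
      have hφ : ∀ i, φ (t i) * tt k = tt k * φ (t i) := fun i => by
        by_cases hi : i ∈ s
        · rw [h1 i hi, tt_comm]
        · rw [(h3 i i).2 hi]; simp
      obtain ⟨x, hx, hfix⟩ := h.fixed (tt k)
        (fun o x => Option.elim o x⁻¹ fun i => t i * x * (t i)⁻¹) Finset.univ
        (by
          rintro (_ | i) _ x hx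
          · simp [hx, inv_eq_of_mul_eq_one_right (tt_sq k)]
          · simp [hx, hφ])
        (by
          rintro (_ | i) _ x
          · simp
          · simp only [Option.elim, hinv]
            rw [← mul_assoc, ← mul_assoc, h2, one_mul, mul_assoc, h2, mul_one])
        (by
          rintro (_ | i) _ (_ | j) _ x
          · rfl
          · simp [mul_assoc]
          · simp [mul_assoc]
          · simp only [Option.elim, hinv]
            calc t i * (t j * x * t j) * t i = (t i * t j) * x * (t j * t i) := by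
                  simp only [mul_assoc]
              _ = (t j * t i) * x * (t i * t j) := by rw [(h3 i j).1]
              _ = _ := by simp only [mul_assoc])
        (by
          rintro (_ | i) _ m x
          · simp [mul_assoc]
          · simp [mul_assoc])
      have h4 : x⁻¹ = x := hfix none (Finset.mem_univ _)
      have h5 : ∀ i, t i * x = x * t i := fun i =>
        mul_inv_eq_iff_eq_mul.1 (hfix (some i) (Finset.mem_univ _))
      refine ⟨Function.update t k x, fun i hi => ?_, fun i => ?_, fun i j => ⟨?_, fun hi => ?_⟩⟩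
      · rcases Finset.mem_insert.1 hi with rfl | hi'
        · simpa using hx
        · rw [Function.update_of_ne (fun h : i = k => hk (h ▸ hi')), h1 i hi']
      · by_cases hi : i = k
        · subst hi
          rw [Function.update_self]
          nth_rewrite 1 [← h4]
          exact inv_mul_cancel x
        · rw [Function.update_of_ne hi, h2]
      · by_cases hi : i = k <;> by_cases hj : j = k <;> simp [hi, hj, h5, (h3 i j).1]
      · have h6 : i ≠ k := fun h => hi (h ▸ Finset.mem_insert_self _ _)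
        rw [Function.update_of_ne h6, (h3 i i).2 fun h => hi (Finset.mem_insert_of_mem h)]
  obtain ⟨t, h1, h2, h3⟩ := key Finset.univ
  exact ⟨t, fun i => h1 i (Finset.mem_univ i), h2, fun i j => (h3 i j).1⟩

theorem exists_y (t : Fin 5 → E) (h1 : ∀ i, φ (t i) = tt i) (h2 : ∀ i, t i * t i = 1)
    (h3 : ∀ i j, t i * t j = t j * t i) {i j : Fin 5} (hij : i ≠ j) :
    ∃ x, φ x = tv i j ∧ (∀ k, k ≠ i → k ≠ j → cj (t k) x = x) ∧
      ∀ k, k = i ∨ k = j → cj (t k) x = x⁻¹ := by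
  have hinv : ∀ i, (t i)⁻¹ = t i := fun i => inv_eq_of_mul_eq_one_right (h2 i)
  have c2 : ∀ k x, cj (t k) (cj (t k) x) = x := fun k x => by
    rw [← cj_mul_left, h2]; simp [cj]
  have c3 : ∀ k l x, cj (t k) (cj (t l) x) = cj (t l) (cj (t k) x) := fun k l x => by
    rw [← cj_mul_left, h3, cj_mul_left]
  obtain ⟨x, hx, hfix⟩ := h.fixed (tv i j)
    (fun k x => if k = i ∨ k = j then cj (t k) x⁻¹ else cj (t k) x) Finset.univ
    (by
      intro k _ x hx
      split_ifs with hk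
      · simp only [cj, map_mul, map_inv, hx, h1]
        rw [mul_inv_eq_iff_eq_mul, mul_inv_eq_iff_eq_mul, mul_assoc, tt_tv_inv hij hk,
          mul_inv_cancel_left]
      · push Not at hk
        simp only [cj, map_mul, map_inv, hx, h1]
        rw [tt_tv_comm hij hk.1 hk.2, mul_inv_cancel_right])
    (by
      intro k _ x
      split_ifs
      · rw [← cj_inv, inv_inv, c2]
      · rw [c2])
    (by
      intro k _ l _ x
      split_ifs <;> simp only [← cj_inv, inv_inv, c3 k l])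
    (by
      intro k _ m x
      split_ifs <;> simp [cj, mul_assoc])
  refine ⟨x, hx, fun k hi hj => ?_, fun k hk => ?_⟩
  · simpa [hi, hj] using hfix k (Finset.mem_univ _)
  · have := hfix k (Finset.mem_univ _)
    simp only [if_pos hk] at this
    rw [cj_inv, inv_eq_iff_eq_inv] at this
    exact this

theorem tf {z : E} (hz : φ z = 1) {n : ℕ} (hn : n ≠ 0) (h1 : z ^ n = 1) : z = 1 := by
  obtain ⟨v, rfl⟩ := (h.ker z).1 hz
  rw [← map_pow, ← map_one τ] at h1
  have h2 : n • v = 0 := congrArg toAdd (h.inj h1)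
  rw [← Nat.cast_smul_eq_nsmul ℚ] at h2
  rw [(smul_eq_zero.1 h2).resolve_left (by exact_mod_cast hn)]
  simp

theorem cj_eq_iff (x : E) (v : V) : cj x (τ (ofAdd v)) = τ (ofAdd v) ↔ R (φ x) v = v := by
  rw [cj, h.conj]
  exact ⟨fun h1 => ofAdd.injective (h.inj h1), fun h1 => by rw [h1]⟩

end IsExt

theorem comm_of_central {a b c s : E} (h0 : a * b * a⁻¹ * b⁻¹ = c) (h1 : cj a c = c)
    (h2 : cj s c = c) (h3 : cj s a = a⁻¹) (h4 : cj s b = b) : c ^ 2 = 1 := by
  have h5 : cj s c = a⁻¹ * b * a * b⁻¹ := by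
    rw [← h0, cj_mul, cj_mul, cj_mul, cj_inv, cj_inv, h3, h4, inv_inv]
  have h6 : cj a (a⁻¹ * b * a * b⁻¹) = c⁻¹ := by rw [← h0]; simp [cj, mul_assoc]
  rw [← h5, h2, h1] at h6
  rw [pow_two]
  nth_rewrite 1 [h6]
  exact inv_mul_cancel c

theorem split [Module.Finite ℚ V] (hV : Module.finrank ℚ V = 5) (h : IsExt φ τ R) :
    ∃ σ : G5 →* E, ∀ A, φ (σ A) = A := by
  obtain ⟨t, ht1, ht2, ht3⟩ := h.exists_t
  have hy : ∀ i j : Fin 5, ∃ x, i ≠ j → φ x = tv i j ∧ (∀ k, k ≠ i → k ≠ j → cj (t k) x = x) ∧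
      ∀ k, k = i ∨ k = j → cj (t k) x = x⁻¹ := fun i j => by
    by_cases hij : i ≠ j
    · obtain ⟨x, hx⟩ := h.exists_y t ht1 ht2 ht3 hij
      exact ⟨x, fun _ => hx⟩
    · exact ⟨1, fun h => absurd h hij⟩
  choose y hy using hy
  have hφ : ∀ i j, i ≠ j → φ (y i j) = tv i j := fun i j hij => (hy i j hij).1
  have yc : ∀ i j k, i ≠ j → k ≠ i → k ≠ j → cj (t k) (y i j) = y i j :=
    fun i j k hij => (hy i j hij).2.1 k
  have yi : ∀ i j k, i ≠ j → k = i ∨ k = j → cj (t k) (y i j) = (y i j)⁻¹ :=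
    fun i j k hij => (hy i j hij).2.2 k
  have k1 : ∀ i j k l, i ≠ j → k ≠ l → j ≠ k → i ≠ l →
      φ (y i j * y k l * (y i j)⁻¹ * (y k l)⁻¹) = 1 := fun i j k l h1 h2 h3 h4 => by
    simp only [map_mul, map_inv, hφ _ _ h1, hφ _ _ h2]
    rw [(stSys_tv.comm i j k l h1 h2 h3 h4).eq]
    simp
  have k2 : ∀ i j k, i ≠ j → j ≠ k → i ≠ k →
      φ (y i j * y j k * (y i j)⁻¹ * (y j k)⁻¹ * (y i k)⁻¹) = 1 := fun i j k h1 h2 h3 => by
    simp only [map_mul, map_inv, hφ _ _ h1, hφ _ _ h2, hφ _ _ h3]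
    rw [stSys_tv.tri i j k h1 h2 h3, mul_inv_cancel]
  have k3 : ∀ i j, i ≠ j → φ ((y i j * (y j i)⁻¹ * y i j) ^ 4) = 1 := fun i j h1 => by
    simp only [map_pow, map_mul, map_inv, hφ _ _ h1, hφ _ _ h1.symm]
    exact stSys_tv.four i j h1
  have cm : ∀ {a b : E}, a * b * a⁻¹ * b⁻¹ = 1 → Commute a b := fun hab => by
    rw [mul_inv_eq_one, mul_inv_eq_iff_eq_mul] at hab
    exact hab
  refine exists_section (y := y) ?_ φ hφ
  rcases dichotomy R hV with ⟨hT, hE⟩ | ⟨hZ, hF⟩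
  · have ct : ∀ z, φ z = 1 → ∀ k, cj (t k) z = z := fun z hz k => by
      obtain ⟨v, rfl⟩ := (h.ker z).1 hz
      rw [h.cj_eq_iff, ht1, hT]
    have cy : ∀ z, φ z = 1 → ∀ i j, i ≠ j → cj (y i j) z = z := fun z hz i j hij => by
      obtain ⟨v, rfl⟩ := (h.ker z).1 hz
      rw [h.cj_eq_iff, hφ _ _ hij, hE _ _ hij]
    have comm : ∀ i j k l, i ≠ j → k ≠ l → j ≠ k → i ≠ l → Commute (y i j) (y k l) := by
      intro i j k l h1 h2 h3 h4
      by_cases hik : i = k
      · by_cases hjl : j = l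
        · rw [hik, hjl]
        · have h5 := k1 i j k l h1 h2 h3 h4
          exact cm (h.tf h5 two_ne_zero (comm_of_central rfl (cy _ h5 _ _ h1) (ct _ h5 j)
            (yi _ _ _ h1 (Or.inr rfl)) (yc _ _ _ h2 h3 hjl)))
      · have h5 := k1 i j k l h1 h2 h3 h4
        exact cm (h.tf h5 two_ne_zero (comm_of_central rfl (cy _ h5 _ _ h1) (ct _ h5 i)
          (yi _ _ _ h1 (Or.inl rfl)) (yc _ _ _ h2 hik h4)))
    refine ⟨comm, fun i j k h1 h2 h3 => ?_, fun i j h1 => ?_, by decide⟩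
    · have h5 := k2 i j k h1 h2 h3
      rw [← mul_inv_eq_one]
      apply h.tf h5 two_ne_zero
      have h6 := ct _ h5 i
      have h7 := cy _ h5 _ _ h1
      have h8 := cj_of_commute (comm i j i k h1 h3 h1.symm h3)
      have h9 := cy _ h5 _ _ h3
      rw [cj_mul, cj_mul, cj_mul, cj_mul, cj_inv, cj_inv, cj_inv, yi _ _ _ h1 (Or.inl rfl),
        yi _ _ _ h3 (Or.inl rfl), yc _ _ _ h2 h1 h3, inv_inv, inv_inv] at h6
      generalize y i j = a at *
      generalize y j k = b at *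
      generalize y i k = c at *
      have h10 : cj a (a⁻¹ * b * a * b⁻¹ * c) = (cj c⁻¹ (a * b * a⁻¹ * b⁻¹ * c⁻¹))⁻¹ := by
        rw [cj_mul, h8]; simp [cj, mul_assoc]
      have h11 : cj c⁻¹ (a * b * a⁻¹ * b⁻¹ * c⁻¹) = a * b * a⁻¹ * b⁻¹ * c⁻¹ := by
        conv_lhs => rw [← h9, ← cj_mul_left, inv_mul_cancel]
        simp [cj]
      rw [h6, h7, h11] at h10
      rw [pow_two]
      nth_rewrite 1 [h10]
      exact inv_mul_cancel _
    · have h5 := k3 i j h1
      apply h.tf h5 two_ne_zero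
      have h6 := ct _ h5 i
      have h7 : cj (t i) (y i j * (y j i)⁻¹ * y i j) = (y i j * (y j i)⁻¹ * y i j)⁻¹ := by
        rw [cj_mul, cj_mul, cj_inv, yi _ _ _ h1 (Or.inl rfl), yi _ _ _ h1.symm (Or.inr rfl)]
        simp [mul_assoc]
      have h8 := cj_zpow (t i) (y i j * (y j i)⁻¹ * y i j) 4
      rw [h7, zpow_ofNat, zpow_ofNat, h6, inv_pow] at h8
      rw [pow_two]
      nth_rewrite 1 [h8]
      exact inv_mul_cancel _
  · have zero : ∀ z, φ z = 1 → ∀ k l, k ≠ l → cj (t k) z = z → cj (t l) z = z → z = 1 := by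
      intro z hz k l hkl h1 h2
      obtain ⟨v, rfl⟩ := (h.ker z).1 hz
      rw [h.cj_eq_iff, ht1] at h1 h2
      rw [hZ k l hkl v h1 h2]
      simp
    have two : ∀ i j k : Fin 5, ∃ l m : Fin 5, l ≠ m ∧ l ≠ i ∧ l ≠ j ∧ l ≠ k ∧ m ≠ i ∧ m ≠ j ∧
        m ≠ k := by decide +kernel
    have four : ∀ i j, i ≠ j → (y i j * (y j i)⁻¹ * y i j) ^ 4 = 1 := by
      intro i j h1
      obtain ⟨l, m, h2, h3, h4, -, h5, h6, -⟩ := two i j j
      have h7 : ∀ k, k ≠ i → k ≠ j → cj (t k) ((y i j * (y j i)⁻¹ * y i j) ^ 4) =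
          (y i j * (y j i)⁻¹ * y i j) ^ 4 := fun k hi hj => by
        simp only [pow_succ, pow_zero, one_mul, cj_mul, cj_inv, yc _ _ _ h1 hi hj,
          yc _ _ _ h1.symm hj hi]
      exact zero _ (k3 i j h1) l m h2 (h7 l h3 h4) (h7 m h5 h6)
    refine ⟨fun i j k l h1 h2 h3 h4 => ?_, fun i j k h1 h2 h3 => ?_, four, by decide⟩
    · by_cases hik : i = k
      · subst hik
        obtain ⟨p, q, a1, a2, a3, a4, a5, a6, a7⟩ := two i j l
        refine cm (zero _ (k1 i j i l h1 h2 h3 h4) p q a1 ?_ ?_)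
        · simp only [cj_mul, cj_inv, yc _ _ _ h1 a2 a3, yc _ _ _ h2 a2 a4]
        · simp only [cj_mul, cj_inv, yc _ _ _ h1 a5 a6, yc _ _ _ h2 a5 a7]
      by_cases hjl : j = l
      · subst hjl
        obtain ⟨p, q, a1, a2, a3, a4, a5, a6, a7⟩ := two i j k
        refine cm (zero _ (k1 i j k j h1 h2 h3 h4) p q a1 ?_ ?_)
        · simp only [cj_mul, cj_inv, yc _ _ _ h1 a2 a3, yc _ _ _ h2 a4 a3]
        · simp only [cj_mul, cj_inv, yc _ _ _ h1 a5 a6, yc _ _ _ h2 a7 a6]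
      obtain ⟨m, a1, a2, a3, a4⟩ : ∃ m : Fin 5, m ≠ i ∧ m ≠ j ∧ m ≠ k ∧ m ≠ l := by
        clear * -
        revert i j k l
        decide +kernel
      obtain ⟨v1, hv1⟩ := (h.ker _).1 (k1 i j k l h1 h2 h3 h4)
      obtain ⟨v2, hv2⟩ := (h.ker _).1 (k1 j i k l h1.symm h2 hik hjl)
      have b1 : R (tt m) v1 = v1 := by
        rw [← ht1, ← h.cj_eq_iff, hv1]
        simp only [cj_mul, cj_inv, yc _ _ _ h1 a1 a2, yc _ _ _ h2 a3 a4]
      have b2 : R (tt m) v2 = v2 := by
        rw [← ht1, ← h.cj_eq_iff, hv2]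
        simp only [cj_mul, cj_inv, yc _ _ _ h1.symm a2 a1, yc _ _ _ h2 a3 a4]
      have cc : ∀ v, R (tt m) v = v → Commute (y i j) (τ (ofAdd v)) ∧
          Commute (y j i) (τ (ofAdd v)) := fun v hv => by
        constructor
        · have := (h.cj_eq_iff (y i j) v).2 (by rw [hφ _ _ h1, hF m i j h1 a1 a2 v hv])
          exact mul_inv_eq_iff_eq_mul.1 this
        · have := (h.cj_eq_iff (y j i) v).2 (by rw [hφ _ _ h1.symm, hF m j i h1.symm a2 a1 v hv])
          exact mul_inv_eq_iff_eq_mul.1 this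
      have e1 : cj (y k l) (y i j) = (τ (ofAdd v1))⁻¹ * y i j := by rw [hv1]; simp [cj, mul_assoc]
      have e2 : cj (y k l) (y j i) = (τ (ofAdd v2))⁻¹ * y j i := by rw [hv2]; simp [cj, mul_assoc]
      have main : ∀ (a b : E) (u w : V), Commute a (τ (ofAdd u)) → Commute b (τ (ofAdd u)) →
          Commute a (τ (ofAdd w)) → Commute b (τ (ofAdd w)) → (a * b⁻¹ * a) ^ 4 = 1 →
          cj (y k l) a = (τ (ofAdd u))⁻¹ * a → cj (y k l) b = (τ (ofAdd w))⁻¹ * b →
          w = u + u := by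
        intro a b u w c1 c2 c3 c4 c5 c6 c7
        have d1 : cj (y k l) (a * b⁻¹ * a) = τ (ofAdd (w - (u + u))) * (a * b⁻¹ * a) := by
          rw [cj_mul, cj_mul, cj_inv, c6, c7, mul_inv_rev, inv_inv, sub_eq_add_neg, neg_add,
            ofAdd_add, ofAdd_add, ofAdd_neg, map_mul, map_mul, map_inv]
          have d2 : Commute (τ (ofAdd u)) (τ (ofAdd w)) := (Commute.all _ _).map τ
          generalize τ (ofAdd u) = p at *
          generalize τ (ofAdd w) = q at *
          calc p⁻¹ * a * (b⁻¹ * q) * (p⁻¹ * a) = p⁻¹ * (a * b⁻¹ * (q * p⁻¹)) * a := by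
                simp only [mul_assoc]
            _ = p⁻¹ * ((q * p⁻¹) * (a * b⁻¹)) * a := by
                rw [((c3.mul_right c1.inv_right).mul_left
                  (c4.mul_right c2.inv_right).inv_left).eq]
            _ = (p⁻¹ * q) * p⁻¹ * (a * b⁻¹ * a) := by simp only [mul_assoc]
            _ = _ := by rw [d2.inv_left.eq]; simp only [mul_assoc]
        have d3 : Commute (τ (ofAdd (w - (u + u)))) (a * b⁻¹ * a) := by
          rw [sub_eq_add_neg, neg_add, ofAdd_add, ofAdd_add, ofAdd_neg, map_mul, map_mul, map_inv]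
          have f1 : Commute a (τ (ofAdd w) * ((τ (ofAdd u))⁻¹ * (τ (ofAdd u))⁻¹)) :=
            c3.mul_right (c1.inv_right.mul_right c1.inv_right)
          have f2 : Commute b (τ (ofAdd w) * ((τ (ofAdd u))⁻¹ * (τ (ofAdd u))⁻¹)) :=
            c4.mul_right (c2.inv_right.mul_right c2.inv_right)
          exact ((f1.mul_left f2.inv_left).mul_left f1).symm
        have d4 := cj_zpow (y k l) (a * b⁻¹ * a) 4
        rw [d1, zpow_ofNat, zpow_ofNat, d3.mul_pow, c5, mul_one] at d4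
        have d5 := h.tf (h.phi_tau _) (n := 4) (by norm_num) (by rw [← d4]; simp [cj])
        rw [← map_one τ] at d5
        exact sub_eq_zero.1 (ofAdd.injective (h.inj d5))
      have g1 := main _ _ v1 v2 (cc v1 b1).1 (cc v1 b1).2 (cc v2 b2).1 (cc v2 b2).2
        (four i j h1) e1 e2
      have g2 := main _ _ v2 v1 (cc v2 b2).2 (cc v2 b2).1 (cc v1 b1).2 (cc v1 b1).1
        (four j i h1.symm) e2 e1
      have g3 : (3 : ℚ) • v1 = 0 := by
        have : v1 + v1 + (v1 + v1) = v1 := by rw [← g1, ← g2]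
        calc (3 : ℚ) • v1 = v1 + v1 + (v1 + v1) - v1 := by module
          _ = 0 := by rw [this, sub_self]
      apply cm
      rw [← hv1, (smul_eq_zero.1 g3).resolve_left (by norm_num)]
      simp
    · obtain ⟨p, q, a1, a2, a3, a4, a5, a6, a7⟩ := two i j k
      rw [← mul_inv_eq_one]
      refine zero _ (k2 i j k h1 h2 h3) p q a1 ?_ ?_
      · simp only [cj_mul, cj_inv, yc _ _ _ h1 a2 a3, yc _ _ _ h2 a3 a4, yc _ _ _ h3 a2 a4]
      · simp only [cj_mul, cj_inv, yc _ _ _ h1 a5 a6, yc _ _ _ h2 a6 a7, yc _ _ _ h3 a5 a7]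

end Pool.Agent.H252Z.SLZ
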