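import Pool.Agent.H252Z.SLZ.Lift

/-! Every extension of `SL(5, ℤ)` by `ℤ ^ 5` is residually finite. -/

set_option autoImplicit false

namespace Pool.Agent.H252Z.SLZ

open Multiplicative

abbrev L5 : Type := Fin 5 → ℤ
abbrev V5 : Type := Fin 5 → ℚ

def cst (x : L5) : V5 := fun i => (x i : ℚ)

theorem cst_inj : Function.Injective cst := fun x y h => funext fun i => by
  have := congrFun h i
  simpa [cst] using this

theorem cst_add (x y : L5) : cst (x + y) = cst x + cst y := by funext i; simp [cst]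

theorem cst_neg (x : L5) : cst (-x) = -cst x := by funext i; simp [cst]

theorem cst_zero : cst 0 = 0 := by funext i; simp [cst]

theorem cst_smul (m : ℕ) (x : L5) : cst ((m : ℤ) • x) = (m : ℚ) • cst x := by funext i; simp [cst]

noncomputable def ext5 : Module.End ℤ L5 →* Module.End ℚ V5 where
  toFun f := Matrix.toLin' ((LinearMap.toMatrix' f).map (Int.castRingHom ℚ))
  map_one' := by
    rw [LinearMap.toMatrix'_one, Matrix.map_one _ (map_zero _) (map_one _), Matrix.toLin'_one]
    rfl
  map_mul' f g := by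
    rw [LinearMap.toMatrix'_mul, Matrix.map_mul, Matrix.toLin'_mul]
    rfl

theorem ext5_cst (f : Module.End ℤ L5) (x : L5) : ext5 f (cst x) = cst (f x) := by
  funext i
  have := RingHom.map_mulVec (Int.castRingHom ℚ) (LinearMap.toMatrix' f) x i
  rw [LinearMap.toMatrix'_mulVec] at this
  exact this.symm

variable {G : Type} [Group G] (N : Subgroup G) [N.Normal] (e : N ≃* Multiplicative L5)

def cact : G →* Module.End ℤ L5 where
  toFun g := AddMonoidHom.toIntLinearMap
    { toFun := fun x => toAdd (e (MulAut.conjNormal g (e.symm (ofAdd x))))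
      map_zero' := by simp
      map_add' := fun x y => by simp [ofAdd_add] }
  map_one' := by ext x; simp
  map_mul' g h := by
    apply LinearMap.ext
    intro x
    simp

theorem cact_e (g : G) (n : N) : cact N e g (toAdd (e n)) = toAdd (e (MulAut.conjNormal g n)) := by
  simp [cact]

theorem cact_mem (g : G) (hg : g ∈ N) : cact N e g = 1 := by
  apply LinearMap.ext
  intro x
  obtain ⟨n, rfl⟩ : ∃ n, x = toAdd (e n) := ⟨e.symm (ofAdd x), by simp⟩
  rw [cact_e]
  have : MulAut.conjNormal g n = ⟨g, hg⟩ * n * ⟨g, hg⟩⁻¹ := Subtype.ext (by simp)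
  rw [this]
  simp

noncomputable def psi (R : G →* Module.End ℚ V5) : G →* MulAut (Multiplicative V5) where
  toFun g :=
    { toFun := fun x => ofAdd (R g (toAdd x))
      invFun := fun x => ofAdd (R g⁻¹ (toAdd x))
      left_inv := fun x => by
        simp only [toAdd_ofAdd]
        rw [← Module.End.mul_apply, ← map_mul]; simp
      right_inv := fun x => by
        simp only [toAdd_ofAdd]
        rw [← Module.End.mul_apply, ← map_mul]; simp
      map_mul' := fun x y => by simp [ofAdd_add] }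
  map_one' := by ext x; simp
  map_mul' g h := by ext x; simp

theorem psi_apply (R : G →* Module.End ℚ V5) (g : G) (x : Multiplicative V5) :
    psi R g x = ofAdd (R g (toAdd x)) := rfl

theorem psi_symm_apply (R : G →* Module.End ℚ V5) (g : G) (x : Multiplicative V5) :
    (psi R g).symm x = ofAdd (R g⁻¹ (toAdd x)) := rfl

noncomputable def RQ : G →* Module.End ℚ V5 := ext5.comp (cact N e)

theorem RQ_cst (g : G) (x : L5) : RQ N e g (cst x) = cst (cact N e g x) := ext5_cst _ _

theorem RQ_mem (g : G) (hg : g ∈ N) : RQ N e g = 1 := by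
  simp [RQ, cact_mem N e g hg]

noncomputable def Del : Subgroup (Multiplicative V5 ⋊[psi (RQ N e)] G) where
  carrier := {p | ∃ n : N, p.left = ofAdd (-cst (toAdd (e n))) ∧ p.right = n}
  one_mem' := ⟨1, by simp [cst_zero], rfl⟩
  mul_mem' := by
    rintro p q ⟨n, h1, h2⟩ ⟨m, h3, h4⟩
    refine ⟨n * m, ?_, by simp [h2, h4]⟩
    simp [h1, h2, h3, psi_apply, RQ_mem N e _ n.2, cst_add, ofAdd_add, mul_comm]
  inv_mem' := by
    rintro p ⟨n, h1, h2⟩
    refine ⟨n⁻¹, ?_, by simp [h2]⟩
    simp [h1, h2, psi_apply, psi_symm_apply, RQ_mem N e _ (inv_mem n.2), cst_neg]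

instance Del_normal : (Del N e).Normal where
  conj_mem := by
    rintro p ⟨n, h1, h2⟩ q
    refine ⟨MulAut.conjNormal q.right n, ?_, by simp [h2]⟩
    have h3 : RQ N e (q.right * n) = RQ N e q.right := by rw [map_mul, RQ_mem N e _ n.2, mul_one]
    have h4 : ∀ v, RQ N e q.right (RQ N e q.right⁻¹ v) = v := fun v => by
      rw [← Module.End.mul_apply, ← map_mul]; simp
    simp [h1, h2, psi_apply, psi_symm_apply, RQ_mem N e _ n.2, h3, h4, RQ_cst, cact_e]

theorem exists_cocycle (e2 : G ⧸ N ≃* G5) : ∃ s : G → V5,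
    (∀ g h, s (g * h) = s g + RQ N e g (s h)) ∧ ∀ n : N, s n = cst (toAdd (e n)) := by
  let φ0 : G →* G5 := e2.toMonoidHom.comp (QuotientGroup.mk' N)
  have hk0 : ∀ g, φ0 g = 1 ↔ g ∈ N := fun g => by simp [φ0]
  let R : G5 →* Module.End ℚ V5 :=
    (QuotientGroup.lift N (RQ N e) fun g hg => RQ_mem N e g hg).comp e2.symm.toMonoidHom
  have hR : ∀ g, R (φ0 g) = RQ N e g := fun g => by simp [R, φ0]
  let φ : (Multiplicative V5 ⋊[psi (RQ N e)] G) ⧸ Del N e →* G5 :=
    QuotientGroup.lift _ (φ0.comp SemidirectProduct.rightHom) (by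
      rintro p ⟨n, -, h2⟩
      simp [MonoidHom.mem_ker, h2, hk0])
  let τ : Multiplicative V5 →* (Multiplicative V5 ⋊[psi (RQ N e)] G) ⧸ Del N e :=
    (QuotientGroup.mk' _).comp SemidirectProduct.inl
  let j : G →* (Multiplicative V5 ⋊[psi (RQ N e)] G) ⧸ Del N e :=
    (QuotientGroup.mk' _).comp SemidirectProduct.inr
  have hφ : ∀ p : Multiplicative V5 ⋊[psi (RQ N e)] G, φ (p : _ ⧸ Del N e) = φ0 p.right :=
    fun p => rfl
  have hj : ∀ g, φ (j g) = φ0 g := fun g => rfl
  have hjn : ∀ n : N, j n = τ (ofAdd (cst (toAdd (e n)))) := fun n => by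
    symm
    apply QuotientGroup.eq.2
    exact ⟨n, by simp [psi_apply], by simp⟩
  have hE : IsExt φ τ R := by
    constructor
    · intro A
      obtain ⟨q, rfl⟩ := e2.surjective A
      obtain ⟨g, rfl⟩ := QuotientGroup.mk_surjective q
      exact ⟨j g, rfl⟩
    · rw [injective_iff_map_eq_one]
      intro v hv
      obtain ⟨n, h1, h2⟩ := (QuotientGroup.eq_one_iff _).1 hv
      have h3 : n = 1 := Subtype.ext (by simpa using h2.symm)
      simpa [h3, cst_zero] using h1
    · intro x
      obtain ⟨p, rfl⟩ := QuotientGroup.mk_surjective x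
      constructor
      · intro h
        rw [hφ, hk0] at h
        refine ⟨toAdd p.left + cst (toAdd (e ⟨p.right, h⟩)), ?_⟩
        rw [ofAdd_add, map_mul, ← hjn]
        conv_rhs => rw [← SemidirectProduct.inl_left_mul_inr_right p]
        rfl
      · rintro ⟨v, hv⟩
        rw [← hv]
        exact map_one φ0
    · intro x v
      obtain ⟨p, rfl⟩ := QuotientGroup.mk_surjective x
      rw [hφ, hR]
      change ((p * SemidirectProduct.inl (ofAdd v) * p⁻¹ : _ ⋊[psi (RQ N e)] G) : _ ⧸ Del N e) =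
        ((SemidirectProduct.inl (ofAdd (RQ N e p.right v)) : _ ⋊[psi (RQ N e)] G) : _ ⧸ Del N e)
      congr 1
      have h4 : ∀ v, RQ N e p.right (RQ N e p.right⁻¹ v) = v := fun v => by
        rw [← Module.End.mul_apply, ← map_mul]; simp
      ext <;> simp [psi_apply, psi_symm_apply, h4]
  obtain ⟨σ, hσ⟩ := split (by simp) hE
  choose s hs using fun g : G => (hE.ker (j g * (σ (φ0 g))⁻¹)).1 (by simp [hj, hσ])
  refine ⟨s, fun g h => ?_, fun n => ?_⟩
  · apply ofAdd.injective
    apply hE.inj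
    rw [add_comm, ofAdd_add, map_mul, ← hR, ← hj, ← hE.conj, hs, hs, hs]
    simp [mul_assoc]
  · apply ofAdd.injective
    apply hE.inj
    rw [hs, (hk0 n).2 n.2, hjn]
    simp

theorem exists_int_cocycle (e2 : G ⧸ N ≃* G5) : ∃ (M : ℕ) (u : G → L5), M ≠ 0 ∧
    (∀ g h, u (g * h) = u g + cact N e g (u h)) ∧ ∀ n : N, u n = (M : ℤ) • toAdd (e n) := by
  obtain ⟨s, h1, h2⟩ := exists_cocycle N e e2
  let φ0 : G →* G5 := e2.toMonoidHom.comp (QuotientGroup.mk' N)
  have hsurj : Function.Surjective φ0 := e2.surjective.comp (QuotientGroup.mk'_surjective N)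
  choose l hl using hsurj
  let M : ℕ := ∏ p : Fin 5 × Fin 5 × Fin 5, (s (l (tv p.1 p.2.1)) p.2.2).den
  have hM : M ≠ 0 := Finset.prod_ne_zero_iff.2 fun p _ => Rat.den_ne_zero _
  have s1 : s 1 = 0 := by
    have := h1 1 1
    rw [mul_one, map_one, Module.End.one_apply] at this
    exact left_eq_add.1 this
  let K : Subgroup G :=
    { carrier := {g | ∃ x, (M : ℚ) • s g = cst x}
      one_mem' := ⟨0, by rw [s1, cst_zero, smul_zero]⟩
      mul_mem' := by
        rintro a b ⟨x, hx⟩ ⟨y, hy⟩
        exact ⟨x + cact N e a y, by rw [h1, smul_add, ← map_smul, hx, hy, RQ_cst, cst_add]⟩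
      inv_mem' := by
        rintro a ⟨x, hx⟩
        have := h1 a⁻¹ a
        rw [inv_mul_cancel, s1] at this
        refine ⟨-cact N e a⁻¹ x, ?_⟩
        rw [eq_neg_of_add_eq_zero_left this.symm, smul_neg, ← map_smul, hx, RQ_cst, cst_neg] }
  have hK : K = ⊤ := by
    have h3 : K.map φ0 = ⊤ := by
      apply gen_top
      intro i j _
      refine ⟨l (tv i j), ?_, hl _⟩
      have : ∀ t, ∃ z : ℤ, (M : ℚ) * s (l (tv i j)) t = z := fun t => by
        obtain ⟨c, hc⟩ : (s (l (tv i j)) t).den ∣ M :=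
          Finset.dvd_prod_of_mem (fun p : Fin 5 × Fin 5 × Fin 5 =>
            (s (l (tv p.1 p.2.1)) p.2.2).den) (Finset.mem_univ (i, j, t))
        refine ⟨c * (s (l (tv i j)) t).num, ?_⟩
        rw [hc]
        push_cast
        rw [← Rat.mul_den_eq_num]
        ring
      choose z hz using this
      exact ⟨z, funext hz⟩
    have h4 : φ0.ker ≤ K := by
      intro g hg
      have hg' : g ∈ N := by simpa [φ0, MonoidHom.mem_ker] using hg
      exact ⟨(M : ℤ) • toAdd (e ⟨g, hg'⟩), by rw [cst_smul, ← h2]⟩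
    rw [← Subgroup.comap_map_eq_self h4, h3, Subgroup.comap_top]
  choose u hu using fun g : G => (show g ∈ K from hK ▸ Subgroup.mem_top g)
  refine ⟨M, u, hM, fun g h => cst_inj ?_, fun n => cst_inj ?_⟩
  · rw [cst_add, ← RQ_cst, ← hu, ← hu, ← hu, h1, smul_add, map_smul]
  · rw [← hu, cst_smul, h2]

include e in
theorem resFin (e2 : G ⧸ N ≃* G5) (g : G) (hg : g ≠ 1) :
    ∃ H : Subgroup G, H.FiniteIndex ∧ g ∉ H := by
  by_cases hN : g ∈ N
  · obtain ⟨M, u, hM, h1, h2⟩ := exists_int_cocycle N e e2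
    have u1 : u 1 = 0 := by
      have := h1 1 1
      rw [mul_one, map_one, Module.End.one_apply] at this
      exact left_eq_add.1 this
    obtain ⟨t, ht⟩ : ∃ t, u g t ≠ 0 := by
      by_contra hc
      push Not at hc
      apply hg
      have h3 : (M : ℤ) • toAdd (e ⟨g, hN⟩) = 0 := by rw [← h2]; exact funext hc
      have h4 : e ⟨g, hN⟩ = 1 := by
        have := (smul_eq_zero.1 h3).resolve_left (by exact_mod_cast hM)
        exact toAdd.injective this
      exact congrArg Subtype.val ((map_eq_one_iff e e.injective).1 h4)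
    set m : ℕ := (u g t).natAbs + 1 with hm
    have hinv : ∀ a x, cact N e a⁻¹ (cact N e a x) = x := fun a x => by
      rw [← Module.End.mul_apply, ← map_mul]; simp
    let H : Subgroup G :=
      { carrier := {a | ∃ z, u a = (m : ℤ) • z}
        one_mem' := ⟨0, by rw [u1, smul_zero]⟩
        mul_mem' := by
          rintro a b ⟨x, hx⟩ ⟨y, hy⟩
          exact ⟨x + cact N e a y, by rw [h1, hx, hy, map_smul, smul_add]⟩
        inv_mem' := by
          rintro a ⟨x, hx⟩
          have := h1 a⁻¹ a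
          rw [inv_mul_cancel, u1] at this
          exact ⟨-cact N e a⁻¹ x, by
            rw [eq_neg_of_add_eq_zero_left this.symm, hx, map_smul, smul_neg]⟩ }
    refine ⟨H, ?_, ?_⟩
    · have : NeZero m := ⟨by omega⟩
      have : Finite (G ⧸ H) := by
        refine Finite.of_injective (fun q : G ⧸ H => fun t => (u q.out t : ZMod m)) ?_
        intro q q' hq
        rw [← QuotientGroup.out_eq' q, ← QuotientGroup.out_eq' q', QuotientGroup.eq]
        have h3 : ∀ t, ∃ z : ℤ, u q'.out t - u q.out t = m * z := fun t =>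
          (ZMod.intCast_eq_intCast_iff_dvd_sub _ _ _).1 (congrFun hq t)
        choose z hz using h3
        have h4 := h1 q.out (q.out⁻¹ * q'.out)
        rw [mul_inv_cancel_left] at h4
        refine ⟨cact N e q.out⁻¹ z, ?_⟩
        rw [← map_smul, ← hinv q.out (u _)]
        congr 1
        funext t
        rw [← sub_eq_iff_eq_add'.2 h4]
        exact hz t
      exact Subgroup.finiteIndex_of_finite_quotient
    · rintro ⟨z, hz⟩
      have h3 : (m : ℤ) ∣ u g t := ⟨z t, congrFun hz t⟩
      have h4 := Int.natAbs_le_of_dvd_ne_zero h3 ht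
      omega
  · let φ0 : G →* G5 := e2.toMonoidHom.comp (QuotientGroup.mk' N)
    have h1 : φ0 g ≠ 1 := by simpa [φ0] using hN
    obtain ⟨i, j, h2⟩ : ∃ i j, (φ0 g).1 i j - (1 : G5).1 i j ≠ 0 := by
      by_contra hc
      push Not at hc
      exact h1 (Matrix.SpecialLinearGroup.ext _ _ fun i j => sub_eq_zero.1 (hc i j))
    set m : ℕ := ((φ0 g).1 i j - (1 : G5).1 i j).natAbs + 1 with hm
    have : NeZero m := ⟨by omega⟩
    let ψ := (Matrix.SpecialLinearGroup.map (n := Fin 5) (Int.castRingHom (ZMod m))).comp φ0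
    refine ⟨ψ.ker, inferInstance, fun h => ?_⟩
    have h3 : ψ g = ψ 1 := by rw [map_one]; exact h
    have h4 : (((φ0 g).1 i j : ℤ) : ZMod m) = (((φ0 1).1 i j : ℤ) : ZMod m) :=
      congrArg (fun A : Matrix.SpecialLinearGroup (Fin 5) (ZMod m) => A.1 i j) h3
    rw [map_one] at h4
    have h5 := Int.natAbs_le_of_dvd_ne_zero ((ZMod.intCast_eq_intCast_iff_dvd_sub _ _ _).1 h4.symm) h2
    omega

end Pool.Agent.H252Z.SLZ
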