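import Pool.Agent.H252Z.SLZ.Silv

/-! The Steinberg relations together with `w ^ 4 = 1` present the elementary group over the
integers. -/

set_option autoImplicit false

namespace Pool.Agent.H252Z.SLZ

variable {ι H : Type} [Group H] [Fintype ι] [DecidableEq ι]
variable {y : ι → ι → H} {act : (ι → ℤ) → H → ι → ℤ} {T : Finset ι} {n : ι}

def PT (y : ι → ι → H) (T : Finset ι) (n : ι) : Subgroup H :=
  Subgroup.closure {z | ∃ i j e, i ∈ T ∧ j ∈ insert n T ∧ i ≠ j ∧ (e = 1 ∨ e = -1) ∧ z = X y i j e}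

def UT (y : ι → ι → H) (A : Finset ι) (n : ι) : Subgroup H :=
  Subgroup.closure {z | ∃ i a, i ∈ A ∧ z = X y i n a}

theorem nm_single (n : ι) : Nm (Pi.single n 1 : ι → ℤ) = 1 := by
  unfold Nm
  rw [Finset.sum_eq_single n]
  · simp
  · intro b _ hb; simp [Pi.single_eq_of_ne hb]
  · simp

omit [Fintype ι] in
theorem upd_of_zero (v : ι → ℤ) (i j : ι) (a : ℤ) (h : v i = 0) : upd v i j a = v := by
  simp [upd, h]

theorem mono_P (hA : Act y act) {g : H}
    (hg : Mono y act (insert n T) (Pi.single n 1) g) (h1 : Nm (act (Pi.single n 1) g) = 1) :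
    g ∈ PT y T n ∧ act (Pi.single n 1) g = Pi.single n 1 := by
  induction hg with
  | one => exact ⟨one_mem _, hA.one _⟩
  | step g z hg hz hle ih =>
    have h0 := nm_pos hA (β := Pi.single n 1) (by simp) g
    obtain ⟨hP, hfix⟩ := ih (by omega)
    obtain ⟨i, j, e, hi, hj, hij, he, rfl⟩ := hz
    rw [hA.mul, hfix, hA.gen _ _ _ _ hij] at h1 ⊢
    by_cases hin : i = n
    · exfalso
      subst hin
      have := nm_upd (Pi.single i 1) i j e
      rw [h1, nm_single] at this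
      rcases he with rfl | rfl <;> simp [Pi.single_eq_of_ne hij.symm] at this
    · refine ⟨mul_mem hP (Subgroup.subset_closure
        ⟨i, j, e, (Finset.mem_insert.1 hi).resolve_left hin, hj, hij, he, rfl⟩), ?_⟩
      exact upd_of_zero _ _ _ _ (Pi.single_eq_of_ne hin _)

omit [Fintype ι] [DecidableEq ι] in
theorem x_mem_ST {i j : ι} (hi : i ∈ T) (hj : j ∈ T) (hij : i ≠ j) {e : ℤ} (he : e = 1 ∨ e = -1) :
    X y i j e ∈ ST y T := Subgroup.subset_closure ⟨i, j, e, hi, hj, hij, he, rfl⟩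

omit [Fintype ι] [DecidableEq ι] in
theorem wl_mem_ST {i j : ι} (hi : i ∈ T) (hj : j ∈ T) (hij : i ≠ j) {e : ℤ}
    (he : e = 1 ∨ e = -1) : Wl y i j e ∈ ST y T :=
  mul_mem (mul_mem (x_mem_ST hi hj hij he) (x_mem_ST hj hi hij.symm (pm_neg he)))
    (x_mem_ST hi hj hij he)

def Rep (y : ι → ι → H) (T : Finset ι) (n : ι) (r : H) : Prop :=
  r = 1 ∨ ∃ i e, i ∈ T ∧ (e = 1 ∨ e = -1) ∧ (r = Wl y i n e ∨ r = Wl y i n e * Wl y i n e)

omit [Fintype ι] [DecidableEq ι] in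
theorem ww_ik (hS : StSys y) {i j k : ι} (h1 : i ≠ j) (h2 : j ≠ k) (h3 : i ≠ k) {e : ℤ}
    (he : e * e = 1) (t : ℤ) : cj (Wl y i j e) (Wl y i k t) = Wl y j k (-(e * t)) := by
  rw [Wl.eq_1 y i k, cj_mul, cj_mul, hS.w_ik h1 h2 h3 he, hS.w_ki h1 h2 h3 he, Wl, mul_neg]

omit [Fintype ι] [DecidableEq ι] in
theorem ww_jk (hS : StSys y) {i j k : ι} (h1 : i ≠ j) (h2 : j ≠ k) (h3 : i ≠ k) {e : ℤ}
    (he : e * e = 1) (t : ℤ) : cj (Wl y i j e) (Wl y j k t) = Wl y i k (e * t) := by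
  rw [Wl.eq_1 y j k, cj_mul, cj_mul, hS.w_jk h1 h2 h3 he, hS.w_kj h1 h2 h3 he, Wl, mul_neg]

omit [Fintype ι] [DecidableEq ι] in
theorem ww_kj (hS : StSys y) {i j k : ι} (h1 : i ≠ j) (h2 : j ≠ k) (h3 : i ≠ k) {e : ℤ}
    (he : e * e = 1) (t : ℤ) : cj (Wl y i j e) (Wl y k j t) = Wl y k i (e * t) := by
  rw [Wl.eq_1 y k j, cj_mul, cj_mul, hS.w_jk h1 h2 h3 he, hS.w_kj h1 h2 h3 he, Wl, mul_neg]

omit [Fintype ι] in
theorem cj_rep (hS : StSys y) (hn : n ∉ T) {k l : ι} (hk : k ∈ T) (hl : l ∈ T) (hkl : k ≠ l)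
    {d : ℤ} (hd : d = 1 ∨ d = -1) {r : H} (hr : Rep y T n r) : Rep y T n (cj (Wl y k l d) r) := by
  have hkn : k ≠ n := fun h => hn (h ▸ hk)
  have hln : l ≠ n := fun h => hn (h ▸ hl)
  rcases hr with rfl | ⟨i, e, hi, he, hr⟩
  · left; simp [cj]
  have hin : i ≠ n := fun h => hn (h ▸ hi)
  have key : ∃ i' e', i' ∈ T ∧ (e' = 1 ∨ e' = -1) ∧ cj (Wl y k l d) (Wl y i n e) = Wl y i' n e' := by
    by_cases h1 : i = k
    · subst h1
      exact ⟨l, _, hl, pm_neg (pm_mul hd he), ww_ik hS hkl hln hkn (sq_of_pm hd) e⟩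
    by_cases h2 : i = l
    · subst h2
      exact ⟨k, _, hk, pm_mul hd he, ww_jk hS hkl hln hkn (sq_of_pm hd) e⟩
    · refine ⟨i, e, hi, he, ?_⟩
      rw [Wl.eq_1 y i n, cj_mul, cj_mul, hS.w_kl hkl hin h1 h2 hkn.symm hln.symm,
        hS.w_kl hkl hin.symm hkn.symm hln.symm h1 h2]
  obtain ⟨i', e', hi', he', h⟩ := key
  right
  rcases hr with rfl | rfl
  · exact ⟨i', e', hi', he', Or.inl h⟩
  · exact ⟨i', e', hi', he', Or.inr (by rw [cj_mul, h])⟩

omit [Fintype ι] in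
theorem rep_mul_n (hS : StSys y) (hn : n ∉ T) {k : ι} (hk : k ∈ T) {d : ℤ} (hd : d = 1 ∨ d = -1)
    {r : H} (hr : Rep y T n r) :
    ∃ s ∈ ST y T, ∃ r', Rep y T n r' ∧ r * Wl y k n d = s * r' := by
  have hkn : k ≠ n := fun h => hn (h ▸ hk)
  have sq : ∀ e : ℤ, (e = 1 ∨ e = -1) →
      ∃ r', Rep y T n r' ∧ Wl y k n e * Wl y k n e * Wl y k n d = r' := by
    intro e he
    by_cases hde : d = e
    · subst hde
      refine ⟨Wl y k n (-d), Or.inr ⟨k, -d, hk, pm_neg hd, Or.inl rfl⟩, ?_⟩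
      rw [← Wl_inv, eq_inv_iff_mul_eq_one, ← hS.w_four hkn hd]
      simp [pow_succ]
    · have : d = -e := by rcases hd with rfl | rfl <;> rcases he with rfl | rfl <;> simp at hde ⊢
      subst this
      exact ⟨Wl y k n e, Or.inr ⟨k, e, hk, he, Or.inl rfl⟩, by rw [← Wl_inv, mul_inv_cancel_right]⟩
  rcases hr with rfl | ⟨i, e, hi, he, hr⟩
  · exact ⟨1, one_mem _, _, Or.inr ⟨k, d, hk, hd, Or.inl rfl⟩, rfl⟩
  have hin : i ≠ n := fun h => hn (h ▸ hi)
  by_cases hik : i = k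
  · subst hik
    rcases hr with rfl | rfl
    · by_cases hde : d = e
      · subst hde
        exact ⟨1, one_mem _, _, Or.inr ⟨i, d, hk, hd, Or.inr rfl⟩, (one_mul _).symm⟩
      · have : d = -e := by rcases hd with rfl | rfl <;> rcases he with rfl | rfl <;> simp at hde ⊢
        subst this
        exact ⟨1, one_mem _, 1, Or.inl rfl, by rw [← Wl_inv]; simp⟩
    · obtain ⟨r', h1, h2⟩ := sq e he
      exact ⟨1, one_mem _, r', h1, by rw [h2, one_mul]⟩
  rcases hr with rfl | rfl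
  · refine ⟨cj (Wl y i n e) (Wl y k n d), ?_, Wl y i n e, Or.inr ⟨i, e, hi, he, Or.inl rfl⟩, by
      simp [cj]⟩
    rw [ww_kj hS hin hkn.symm hik (sq_of_pm he)]
    exact wl_mem_ST hk hi (Ne.symm hik) (pm_mul he hd)
  · have hki : k ≠ i := Ne.symm hik
    have h1 : Wl y i n e = cj (Wl y k i 1) (Wl y k n (-e)) := by
      rw [ww_ik hS hki hin hkn rfl]; simp
    have h2 : cj (Wl y k n (-e)) (cj (Wl y k n (-e)) (Wl y k i (-1))) ∈ ST y T := by
      rw [ww_ik hS hkn hin.symm hki (sq_of_pm (pm_neg he)),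
        ww_jk hS hkn hin.symm hki (sq_of_pm (pm_neg he))]
      exact wl_mem_ST hk hi hki (pm_mul (pm_neg he) (pm_neg (pm_mul (pm_neg he) (Or.inr rfl))))
    obtain ⟨r', h3, h4⟩ := sq (-e) (pm_neg he)
    refine ⟨_, mul_mem (wl_mem_ST hk hi hki (Or.inl rfl)) h2, r', h3, ?_⟩
    rw [h1, ← h4, ← Wl_inv k i 1]
    simp [cj, mul_assoc]

omit [Fintype ι] in
theorem rep_mul (hS : StSys y) (hn : n ∉ T) {z : H} (hz : z ∈ WGen y (insert n T))
    {r : H} (hr : Rep y T n r) : ∃ s ∈ ST y T, ∃ r', Rep y T n r' ∧ r * z = s * r' := by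
  obtain ⟨k, l, d, hk, hl, hkl, hd, rfl⟩ := hz
  rcases Finset.mem_insert.1 hl with rfl | hl'
  · exact rep_mul_n hS hn ((Finset.mem_insert.1 hk).resolve_left hkl) hd hr
  rcases Finset.mem_insert.1 hk with rfl | hk'
  · have h := hS.braid hkl (sq_of_pm hd)
    rw [← h]
    exact rep_mul_n hS hn hl' (pm_neg hd) hr
  · refine ⟨_, wl_mem_ST hk' hl' hkl hd, _, cj_rep hS hn hk' hl' hkl (pm_neg hd) hr, ?_⟩
    rw [← Wl_inv]
    simp [cj, mul_assoc]

omit [Fintype ι] in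
theorem W_decomp (hS : StSys y) (hn : n ∉ T) {u : H} (hu : u ∈ WT y (insert n T)) :
    ∃ s ∈ ST y T, ∃ r, Rep y T n r ∧ u = s * r := by
  induction hu using Subgroup.closure_induction_right with
  | one => exact ⟨1, one_mem _, 1, Or.inl rfl, by simp⟩
  | mul_right x _ z hz ih =>
    obtain ⟨s, hs, r, hr, rfl⟩ := ih
    obtain ⟨s', hs', r', hr', h⟩ := rep_mul hS hn hz hr
    exact ⟨s * s', mul_mem hs hs', r', hr', by rw [mul_assoc, h, mul_assoc]⟩
  | mul_inv_cancel x _ z hz ih =>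
    obtain ⟨s, hs, r, hr, rfl⟩ := ih
    have hz' : z⁻¹ ∈ WGen y (insert n T) := by
      obtain ⟨k, l, d, hk, hl, hkl, hd, rfl⟩ := hz
      exact ⟨k, l, -d, hk, hl, hkl, pm_neg hd, Wl_inv _ _ _⟩
    obtain ⟨s', hs', r', hr', h⟩ := rep_mul hS hn hz' hr
    exact ⟨s * s', mul_mem hs hs', r', hr', by rw [mul_assoc, h, mul_assoc]⟩

omit [Fintype ι] in
theorem ST_coord (hA : Act y act) (hn : n ∉ T) {s : H} (hs : s ∈ ST y T) :
    ∀ v, act v s n = v n := by
  induction hs using Subgroup.closure_induction with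
  | mem x hx =>
    obtain ⟨i, j, e, -, hj, hij, -, rfl⟩ := hx
    intro v
    rw [hA.gen _ _ _ _ hij, upd_apply, if_neg (fun h : n = j => hn (h ▸ hj))]
  | one => intro v; rw [hA.one]
  | mul a b _ _ ha hb => intro v; rw [hA.mul, hb, ha]
  | inv a _ ha => intro v; rw [← ha (act v a⁻¹), ← hA.mul, inv_mul_cancel, hA.one]

omit [Fintype ι] in
theorem ST_fix (hA : Act y act) {s : H} (hs : s ∈ ST y T) (v : ι → ℤ) (hv : ∀ t ∈ T, v t = 0) :
    act v s = v := by
  induction hs using Subgroup.closure_induction with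
  | mem x hx =>
    obtain ⟨i, j, e, hi, -, hij, -, rfl⟩ := hx
    rw [hA.gen _ _ _ _ hij, upd_of_zero _ _ _ _ (hv i hi)]
  | one => rw [hA.one]
  | mul a b _ _ ha hb => rw [hA.mul, ha, hb]
  | inv a _ ha => conv_lhs => rw [← ha, ← hA.mul, mul_inv_cancel, hA.one]

omit [Fintype ι] in
theorem UT_fix (hA : Act y act) (hn : n ∉ T) {s : H} (hs : s ∈ UT y T n) (v : ι → ℤ)
    (hv : ∀ t ∈ T, v t = 0) : act v s = v := by
  induction hs using Subgroup.closure_induction with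
  | mem x hx =>
    obtain ⟨i, a, hi, rfl⟩ := hx
    rw [hA.gen _ _ _ _ (fun h : i = n => hn (h ▸ hi)), upd_of_zero _ _ _ _ (hv i hi)]
  | one => rw [hA.one]
  | mul a b _ _ ha hb => rw [hA.mul, ha, hb]
  | inv a _ ha => conv_lhs => rw [← ha, ← hA.mul, mul_inv_cancel, hA.one]

omit [Fintype ι] in
theorem rep_eq_one (hA : Act y act) (hn : n ∉ T) {r : H} (hr : Rep y T n r)
    (h : act (Pi.single n 1) r = Pi.single n 1) : r = 1 := by
  rcases hr with rfl | ⟨i, e, hi, he, hr⟩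
  · rfl
  exfalso
  have hin : i ≠ n := fun h => hn (h ▸ hi)
  have h1 := congrFun h n
  rcases hr with rfl | rfl <;> rcases he with rfl | rfl <;>
    simp [Wl, hA.mul, hA.gen _ _ _ _ hin, hA.gen _ _ _ _ hin.symm, upd_apply, hin, hin.symm] at h1

omit [Fintype ι] in
theorem UT_insert (hS : StSys y) {i : ι} (hn : n ∉ insert i T) {u : H}
    (hu : u ∈ UT y (insert i T) n) : ∃ a, ∃ u' ∈ UT y T n, u = X y i n a * u' := by
  have hin : i ≠ n := fun h => hn (h ▸ Finset.mem_insert_self _ _)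
  have step : ∀ k b, k ∈ insert i T → ∀ a, ∀ u' ∈ UT y T n,
      ∃ a', ∃ u'' ∈ UT y T n, X y k n b * (X y i n a * u') = X y i n a' * u'' := by
    intro k b hk a u' hu'
    rcases Finset.mem_insert.1 hk with rfl | hk
    · exact ⟨b + a, u', hu', by rw [X_add, mul_assoc]⟩
    · have hkn : k ≠ n := fun h => hn (h ▸ Finset.mem_insert_of_mem hk)
      refine ⟨a, X y k n b * u', mul_mem (Subgroup.subset_closure ⟨k, b, hk, rfl⟩) hu', ?_⟩
      rw [← mul_assoc, (hS.xcomm hkn hin hin.symm hkn _ _).eq, mul_assoc]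
  induction hu using Subgroup.closure_induction_left with
  | one => exact ⟨0, 1, one_mem _, by simp [X_zero]⟩
  | mul_left x hx z _ ih =>
    obtain ⟨k, b, hk, rfl⟩ := hx
    obtain ⟨a, u', hu', rfl⟩ := ih
    exact step k b hk a u' hu'
  | inv_mul_cancel x hx z _ ih =>
    obtain ⟨k, b, hk, rfl⟩ := hx
    obtain ⟨a, u', hu', rfl⟩ := ih
    rw [← X_neg]
    exact step k _ hk a u' hu'

omit [Fintype ι] in
theorem UT_eq_one (hS : StSys y) (hA : Act y act) (hn : n ∉ T) {u : H} (hu : u ∈ UT y T n)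
    (h : ∀ v, act v u n = v n) : u = 1 := by
  induction T using Finset.induction_on generalizing u with
  | empty => simpa [UT] using hu
  | insert i T hi ih =>
    have hin : i ≠ n := fun h => hn (h ▸ Finset.mem_insert_self _ _)
    have hn' : n ∉ T := fun h => hn (Finset.mem_insert_of_mem h)
    obtain ⟨a, u', hu', rfl⟩ := UT_insert hS hn hu
    have h1 := h (Pi.single i 1)
    rw [hA.mul, hA.gen _ _ _ _ hin, UT_fix hA hn' hu'] at h1
    · have ha : a = 0 := by simpa [upd_apply] using h1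
      subst ha
      rw [X_zero, one_mul] at h ⊢
      exact ih hn' hu' h
    · intro t ht
      have h2 : t ≠ n := fun h => hn' (h ▸ ht)
      have h3 : t ≠ i := fun h => hi (h ▸ ht)
      simp [upd_apply, h2, h3]

omit [Fintype ι] in
theorem cj_UT (hS : StSys y) (hn : n ∉ T) {k l : ι} (hk : k ∈ T) (hl : l ∈ T) (hkl : k ≠ l)
    (d : ℤ) {u : H} (hu : u ∈ UT y T n) : cj (X y k l d) u ∈ UT y T n := by
  have hkn : k ≠ n := fun h => hn (h ▸ hk)
  have hln : l ≠ n := fun h => hn (h ▸ hl)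
  induction hu using Subgroup.closure_induction with
  | mem x hx =>
    obtain ⟨i, a, hi, rfl⟩ := hx
    have hin : i ≠ n := fun h => hn (h ▸ hi)
    by_cases hli : l = i
    · subst hli
      rw [hS.conj1 hkl hln hkn]
      exact mul_mem (Subgroup.subset_closure ⟨k, _, hk, rfl⟩)
        (Subgroup.subset_closure ⟨l, _, hl, rfl⟩)
    · rw [cj_of_commute (hS.xcomm hkl hin hli hkn _ _)]
      exact Subgroup.subset_closure ⟨i, _, hi, rfl⟩
  | one => simp [cj]
  | mul a b _ _ ha hb => rw [cj_mul]; exact mul_mem ha hb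
  | inv a _ ha => rw [cj_inv]; exact inv_mem ha

omit [Fintype ι] in
theorem P_decomp (hS : StSys y) (hn : n ∉ T) {g : H} (hg : g ∈ PT y T n) :
    ∃ u ∈ UT y T n, ∃ s ∈ ST y T, g = u * s := by
  have step : ∀ i j e, i ∈ T → j ∈ insert n T → i ≠ j → (e = 1 ∨ e = -1) → ∀ u ∈ UT y T n,
      ∀ s ∈ ST y T, ∃ u' ∈ UT y T n, ∃ s' ∈ ST y T, X y i j e * (u * s) = u' * s' := by
    intro i j e hi hj hij he u hu s hs
    rcases Finset.mem_insert.1 hj with rfl | hj
    · exact ⟨_, mul_mem (Subgroup.subset_closure ⟨i, e, hi, rfl⟩) hu, s, hs, (mul_assoc _ _ _).symm⟩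
    · exact ⟨_, cj_UT hS hn hi hj hij e hu, _, mul_mem (x_mem_ST hi hj hij he) hs, by
        simp [cj, mul_assoc]⟩
  induction hg using Subgroup.closure_induction_left with
  | one => exact ⟨1, one_mem _, 1, one_mem _, by simp⟩
  | mul_left x hx z _ ih =>
    obtain ⟨i, j, e, hi, hj, hij, he, rfl⟩ := hx
    obtain ⟨u, hu, s, hs, rfl⟩ := ih
    exact step i j e hi hj hij he u hu s hs
  | inv_mul_cancel x hx z _ ih =>
    obtain ⟨i, j, e, hi, hj, hij, he, rfl⟩ := hx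
    obtain ⟨u, hu, s, hs, rfl⟩ := ih
    rw [← X_neg]
    exact step i j _ hi hj hij (pm_neg he) u hu s hs

theorem presentation (hS : StSys y) (hA : Act y act) (T : Finset ι) :
    ∀ c ∈ ST y T, (∀ v, act v c = v) → c = 1 := by
  induction T using Finset.induction_on with
  | empty => intro c hc _; simpa [ST, Gen] using hc
  | insert n T hn ih =>
    intro c hc hv
    obtain ⟨g, w, hg, hw, rfl⟩ := silvester hS hA (nm_single n) hc
    have h1 : Nm (act (Pi.single n 1) g) = 1 := by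
      rw [← nm_W hA hw, ← hA.mul, hv, nm_single]
    obtain ⟨hP, hfix⟩ := mono_P hA hg h1
    obtain ⟨s, hs, r, hr, rfl⟩ := W_decomp hS hn hw
    have hβ : ∀ t ∈ T, (Pi.single n 1 : ι → ℤ) t = 0 := fun t ht =>
      Pi.single_eq_of_ne (fun h : t = n => hn (h ▸ ht)) _
    have h2 : r = 1 := by
      apply rep_eq_one hA hn hr
      have := hv (Pi.single n 1)
      rwa [hA.mul, hfix, hA.mul, ST_fix hA hs _ hβ] at this
    subst h2
    obtain ⟨u, hu, s', hs', rfl⟩ := P_decomp hS hn hP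
    have h3 : u = 1 := by
      apply UT_eq_one hS hA hn hu
      intro v
      have := congrFun (hv v) n
      rwa [mul_one, mul_assoc, hA.mul, ST_coord hA hn (mul_mem hs' hs)] at this
    subst h3
    rw [one_mul, mul_one] at hv ⊢
    exact ih _ (mul_mem hs' hs) hv

end Pool.Agent.H252Z.SLZ
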