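import Pool.Agent.H252Z.SLZ.Gen

/-! Relations between elementary matrices and sign matrices in `SL(5, ℤ)`. -/

set_option autoImplicit false

open Matrix

namespace Pool.Agent.H252Z.SLZ

abbrev G5 : Type := SLZ (Fin 5)

theorem ext_vact {g h : G5} (H : ∀ v, vact v g = vact v h) : g = h := by
  rw [← mul_inv_eq_one]
  apply eq_one_of_vact
  intro i
  rw [vact_mul, H, ← vact_mul, mul_inv_cancel, vact_one]

def tt (k : Fin 5) : G5 :=
  ⟨diagonal fun i => if i = k then 1 else -1, by
    rw [det_diagonal]
    revert k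
    decide⟩

theorem vact_tt (v : Fin 5 → ℤ) (k t : Fin 5) :
    vact v (tt k) t = if t = k then v t else -v t := by
  simp only [vact, tt, vecMul_diagonal]
  split_ifs <;> simp

theorem vact_tv (v : Fin 5 → ℤ) {i j : Fin 5} (h : i ≠ j) : vact v (tv i j) = upd v i j 1 := by
  rw [← vact_X v h, X, zpow_one]

theorem vact_tv_inv (v : Fin 5 → ℤ) {i j : Fin 5} (h : i ≠ j) :
    vact v (tv i j)⁻¹ = upd v i j (-1) := by
  rw [← vact_X v h, X, _root_.zpow_neg_one]

theorem tv_self (i : Fin 5) : tv i i = 1 := by simp [tv]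

theorem tt_sq (k : Fin 5) : tt k * tt k = 1 := by
  apply ext_vact
  intro v
  funext t
  simp only [vact_mul, vact_tt, vact_one]
  split_ifs <;> simp

theorem tt_comm (k l : Fin 5) : tt k * tt l = tt l * tt k := by
  apply ext_vact
  intro v
  funext t
  simp only [vact_mul, vact_tt]
  split_ifs <;> simp

theorem tt_prod : tt 0 * tt 1 * tt 2 * tt 3 * tt 4 = 1 := by
  apply ext_vact
  intro v
  funext t
  simp only [vact_mul, vact_tt, vact_one]
  fin_cases t <;> simp

theorem tt_tv_comm {i j k : Fin 5} (h : i ≠ j) (hi : k ≠ i) (hj : k ≠ j) :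
    tt k * tv i j = tv i j * tt k := by
  apply ext_vact
  intro v
  funext t
  simp only [vact_mul, vact_tt, vact_tv _ h, upd_apply, if_neg hi.symm, if_neg hj.symm]
  by_cases h1 : t = j
  · subst h1; simp [hj.symm]; ring
  · simp [h1]

theorem tt_tv_inv {i j k : Fin 5} (h : i ≠ j) (hk : k = i ∨ k = j) :
    tt k * tv i j = (tv i j)⁻¹ * tt k := by
  apply ext_vact
  intro v
  funext t
  simp only [vact_mul, vact_tt, vact_tv _ h, vact_tv_inv _ h, upd_apply]
  by_cases h1 : t = j
  · subst h1
    rcases hk with rfl | rfl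
    · simp [h.symm]; ring
    · simp [h]
  · simp [h1]

theorem vact_w (v : Fin 5 → ℤ) {i j : Fin 5} (h : i ≠ j) (t : Fin 5) :
    vact v (tv i j * (tv j i)⁻¹ * tv i j) t =
      if t = i then -v j else if t = j then v i else v t := by
  simp only [vact_mul, vact_tv _ h, vact_tv_inv _ h.symm, upd_apply, if_neg h, if_true]
  by_cases h1 : t = j
  · subst h1; simp [h.symm]
  · by_cases h2 : t = i
    · subst h2; simp [h]
    · simp [h1, h2]

theorem w_tt {i j : Fin 5} (h : i ≠ j) (k : Fin 5) :
    tt (Equiv.swap i j k) * (tv i j * (tv j i)⁻¹ * tv i j) =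
      (tv i j * (tv j i)⁻¹ * tv i j) * tt k := by
  apply ext_vact
  intro v
  funext t
  rw [vact_mul v (tt _), vact_w _ h, vact_mul v _ (tt k)]
  simp only [vact_tt, vact_w _ h, Equiv.swap_apply_def]
  by_cases h1 : t = i <;> by_cases h2 : t = j <;> by_cases h3 : k = i <;> by_cases h4 : k = j <;>
    simp_all [eq_comm]

theorem stSys_tv : StSys (tv : Fin 5 → Fin 5 → G5) where
  comm i j k l h1 h2 h3 h4 := by
    apply ext_vact
    intro v
    funext t
    simp only [vact_mul, vact_tv _ h1, vact_tv _ h2, upd_apply, if_neg h3.symm, if_neg h4]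
    by_cases h5 : l = j
    · subst h5
      simp only [if_true]
      split_ifs
      · ring
      · rfl
    · simp only [if_neg h5, if_neg (Ne.symm h5)]
      split_ifs <;> simp_all
  tri i j k h1 h2 h3 := by
    apply ext_vact
    intro v
    funext t
    simp only [vact_mul, vact_tv _ h1, vact_tv _ h2, vact_tv _ h3, vact_tv_inv _ h1,
      vact_tv_inv _ h2, upd_apply, if_neg h1, if_neg h2, if_neg h3, if_neg h2.symm, if_true]
    split_ifs <;> simp_all
    ring
  four i j h := by
    apply ext_vact
    intro v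
    funext t
    simp only [pow_succ, pow_zero, one_mul, vact_mul _ _ (tv i j * (tv j i)⁻¹ * tv i j),
      vact_w _ h, if_neg h.symm, if_true, vact_one]
    split_ifs <;> simp_all
  third := by decide

end Pool.Agent.H252Z.SLZ
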