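import Pool.Agent.H252Z.SLZ.Rel

/-! Five-dimensional rational representations of `SL(5, ℤ)`: the sign matrices act either
trivially or with five one-dimensional weight spaces. -/

set_option autoImplicit false

namespace Pool.Agent.H252Z.SLZ

variable {V : Type} [AddCommGroup V] [Module ℚ V]

def sg (b : Bool) : ℚ := if b then 1 else -1

def Occ (S : Fin 5 → Module.End ℚ V) (ε : Fin 5 → Bool) : Prop :=
  ∃ w : V, w ≠ 0 ∧ ∀ k, S k w = sg (ε k) • w

theorem exists_weight (S : Fin 5 → Module.End ℚ V) (hsq : ∀ k v, S k (S k v) = v)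
    (hc : ∀ k l v, S k (S l v) = S l (S k v)) (v : V) (hv : v ≠ 0) :
    ∃ ε, Occ S ε ∧ ∀ k b, S k v = sg b • v → ε k = b := by
  have key : ∀ s : Finset (Fin 5), ∃ w : V, w ≠ 0 ∧ (∀ k ∈ s, ∃ b, S k w = sg b • w) ∧
      ∀ k (c : ℚ), S k v = c • v → S k w = c • w := by
    intro s
    induction s using Finset.induction_on with
    | empty => exact ⟨v, hv, by simp, fun _ _ h => h⟩
    | insert k s _ ih =>
      obtain ⟨w, hw, h1, h2⟩ := ih
      by_cases h : w + S k w = 0
      · refine ⟨w, hw, fun l hl => ?_, h2⟩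
        rcases Finset.mem_insert.1 hl with rfl | hl
        · exact ⟨false, by simp [sg, eq_neg_of_add_eq_zero_right h]⟩
        · exact h1 l hl
      · have h3 : ∀ l (c : ℚ), S l w = c • w → S l (w + S k w) = c • (w + S k w) := by
          intro l c h4
          rw [map_add, hc, h4, map_smul, smul_add]
        refine ⟨w + S k w, h, fun l hl => ?_, fun l c h4 => h3 l c (h2 l c h4)⟩
        rcases Finset.mem_insert.1 hl with rfl | hl
        · exact ⟨true, by simp [sg, hsq, add_comm]⟩
        · obtain ⟨b, hb⟩ := h1 l hl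
          exact ⟨b, h3 l _ hb⟩
  obtain ⟨w, hw, h1, h2⟩ := key Finset.univ
  choose ε hε using fun k => h1 k (Finset.mem_univ k)
  refine ⟨ε, ⟨w, hw, hε⟩, fun k b hb => ?_⟩
  have h3 := h2 k _ hb
  rw [hε k] at h3
  have h4 := smul_left_injective ℚ hw h3
  revert h4
  cases ε k <;> cases b <;> simp [sg] <;> norm_num

def code (ε : Fin 5 → Bool) : ℤ := ∑ k : Fin 5, 2 ^ (k : ℕ) * (if ε k then 1 else -1)

theorem code_inj : Function.Injective code := by
  unfold Function.Injective
  decide +kernel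

theorem occ_indep (S : Fin 5 → Module.End ℚ V) {κ : Type} (ε : κ → Fin 5 → Bool)
    (hε : Function.Injective ε) (u : κ → V) (hu : ∀ m, u m ≠ 0)
    (h : ∀ m k, S k (u m) = sg (ε m k) • u m) : LinearIndependent ℚ u := by
  refine Module.End.eigenvectors_linearIndependent' (∑ k : Fin 5, (2 ^ (k : ℕ) : ℚ) • S k)
    (fun m => (code (ε m) : ℚ)) (fun a b hab => hε (code_inj (Int.cast_injective (α := ℚ) hab))) u fun m => ?_
  refine ⟨Module.End.mem_eigenspace_iff.2 ?_, hu m⟩
  simp only [LinearMap.sum_apply, LinearMap.smul_apply, h, smul_smul, ← Finset.sum_smul, code, sg]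
  congr 1
  push_cast
  rfl

theorem occ_card [Module.Finite ℚ V] (hV : Module.finrank ℚ V = 5) (S : Fin 5 → Module.End ℚ V)
    (P : Finset (Fin 5 → Bool)) (h : ∀ ε ∈ P, Occ S ε) : P.card ≤ 5 := by
  choose u hu hu' using fun ε : P => h ε ε.2
  have := (occ_indep S (fun ε : P => ε.1) Subtype.val_injective u hu hu').fintype_card_le_finrank
  simpa [hV] using this

def cnt (ε : Fin 5 → Bool) : ℕ := (Finset.univ.filter fun k => ε k = false).card

theorem swap_conn : ∀ ε ε' : Fin 5 → Bool, cnt ε = cnt ε' →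
    ∃ i j k l : Fin 5, ε' = (ε ∘ Equiv.swap i j) ∘ Equiv.swap k l := by
  decide +kernel

theorem cnt_cases : ∀ ε : Fin 5 → Bool,
    (ε 0 == (ε 1 == (ε 2 == (ε 3 == ε 4)))) = true → ε = (fun _ => true) ∨ cnt ε = 2 ∨ cnt ε = 4 := by
  decide +kernel

variable (R : G5 →* Module.End ℚ V)

theorem R_mul (g h : G5) (v : V) : R (g * h) v = R g (R h v) := by rw [map_mul]; rfl

theorem R_ne_zero (g : G5) {v : V} (hv : v ≠ 0) : R g v ≠ 0 := by
  intro h
  apply hv
  have : R (g⁻¹ * g) v = 0 := by rw [R_mul, h, map_zero]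
  simpa using this

theorem occ_swap {ε : Fin 5 → Bool} (h : Occ (fun k => R (tt k)) ε) (i j : Fin 5) :
    Occ (fun k => R (tt k)) (ε ∘ Equiv.swap i j) := by
  by_cases hij : i = j
  · subst hij; simpa using h
  obtain ⟨w, hw, h1⟩ := h
  refine ⟨R (tv i j * (tv j i)⁻¹ * tv i j) w, R_ne_zero R _ hw, fun k => ?_⟩
  have h2 := w_tt hij (Equiv.swap i j k)
  rw [Equiv.swap_apply_self] at h2
  simp only [Function.comp_apply]
  rw [← R_mul, h2, R_mul, h1, map_smul]

theorem occ_cnt {ε ε' : Fin 5 → Bool} (h : Occ (fun k => R (tt k)) ε) (h' : cnt ε = cnt ε') :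
    Occ (fun k => R (tt k)) ε' := by
  obtain ⟨i, j, k, l, rfl⟩ := swap_conn ε ε' h'
  exact occ_swap R (occ_swap R h i j) k l

theorem occ_cases {ε : Fin 5 → Bool} (h : Occ (fun k => R (tt k)) ε) :
    ε = (fun _ => true) ∨ cnt ε = 2 ∨ cnt ε = 4 := by
  apply cnt_cases
  obtain ⟨w, hw, h1⟩ := h
  have h2 : R (tt 0 * tt 1 * tt 2 * tt 3 * tt 4) w = w := by rw [tt_prod]; simp
  simp only [R_mul, h1, map_smul, smul_smul] at h2
  nth_rewrite 2 [← one_smul ℚ w] at h2
  have h3 := smul_left_injective ℚ hw h2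
  revert h3
  cases ε 0 <;> cases ε 1 <;> cases ε 2 <;> cases ε 3 <;> cases ε 4 <;> simp [sg] <;> norm_num

theorem tt_weight (v : V) (hv : v ≠ 0) :
    ∃ ε, Occ (fun k => R (tt k)) ε ∧ ∀ k b, R (tt k) v = sg b • v → ε k = b :=
  exists_weight (fun k => R (tt k)) (fun k v => by rw [← R_mul, tt_sq]; simp)
    (fun k l v => by rw [← R_mul, tt_comm, R_mul]) v hv

variable [Module.Finite ℚ V] (hV : Module.finrank ℚ V = 5)
include hV

theorem not_two {ε : Fin 5 → Bool} (h : Occ (fun k => R (tt k)) ε) : cnt ε ≠ 2 := by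
  intro h2
  have := occ_card hV _ (Finset.univ.filter fun ε' => cnt ε' = 2) fun ε' hε' =>
    occ_cnt R h (by rw [h2, (Finset.mem_filter.1 hε').2])
  revert this
  decide +kernel

theorem caseA_tt (h0 : Occ (fun k => R (tt k)) fun _ => true) (k : Fin 5) (v : V) :
    R (tt k) v = v := by
  by_contra hne
  obtain ⟨ε, hε, h1⟩ := tt_weight R (v - R (tt k) v) (sub_ne_zero.2 (Ne.symm hne))
  have h2 : ε k = false := h1 k false (by
    rw [map_sub, ← R_mul, tt_sq]; simp [sg])
  rcases occ_cases R hε with rfl | h3 | h3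
  · simp at h2
  · exact not_two R hV hε h3
  · have := occ_card hV _ (insert (fun _ => true) (Finset.univ.filter fun ε' => cnt ε' = 4))
      fun ε' hε' => by
        rcases Finset.mem_insert.1 hε' with rfl | hε'
        · exact h0
        · exact occ_cnt R hε (by rw [h3, (Finset.mem_filter.1 hε').2])
    revert this
    decide +kernel

theorem caseA_tv (hT : ∀ k v, R (tt k) v = v) (i k : Fin 5) (hik : i ≠ k) (v : V) :
    R (tv i k) v = v := by
  have hsq : ∀ p q v, R (tv p q) (R (tv p q) v) = v := by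
    intro p q v
    by_cases h : p = q
    · simp [h, tv_self]
    · have h1 := congrArg (fun g => R g v) (tt_tv_inv h (Or.inl rfl))
      simp only [R_mul, hT] at h1
      conv_lhs => rw [h1, ← R_mul, mul_inv_cancel]
      simp
  have hc : ∀ p q v, R (tv i p) (R (tv i q) v) = R (tv i q) (R (tv i p) v) := by
    intro p q v
    by_cases h1 : i = p
    · simp [← h1, tv_self]
    by_cases h2 : i = q
    · simp [← h2, tv_self]
    rw [← R_mul, (stSys_tv.comm i p i q h1 h2 (Ne.symm h1) h2).eq, R_mul]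
  by_contra hne
  obtain ⟨ε, hε, h1⟩ := exists_weight (fun j => R (tv i j)) (hsq i) hc (v - R (tv i k) v)
    (sub_ne_zero.2 (Ne.symm hne))
  have h2 : ε k = false := h1 k false (by simp [map_sub, hsq, sg])
  have h3 : ε i = true := h1 i true (by simp [tv_self, sg])
  have flip : ∀ ε' : Fin 5 → Bool, Occ (fun j => R (tv i j)) ε' → ε' k = false → ∀ j, j ≠ i →
      j ≠ k → Occ (fun j => R (tv i j)) (Function.update ε' j (!ε' j)) := by
    rintro ε' ⟨w, hw, h4⟩ h5 j hji hjk
    refine ⟨R (tv j k) w, R_ne_zero R _ hw, fun l => ?_⟩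
    by_cases hl : l = j
    · subst hl
      have h6 := stSys_tv.tri i l k hji.symm hjk hik
      rw [mul_inv_eq_iff_eq_mul, mul_inv_eq_iff_eq_mul,
        (stSys_tv.comm i k l k hik hjk hjk.symm hik).eq] at h6
      have h7 := h4 k
      have h8 := h4 l
      simp only at h7 h8
      rw [← R_mul, h6, R_mul, R_mul, h8, map_smul, map_smul, h7, map_smul, smul_smul, h5,
        Function.update_self]
      congr 1
      cases ε' l <;> simp [sg]
    · rw [Function.update_of_ne hl]
      by_cases hli : l = i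
      · have h7 := h4 l
        simp only [hli, tv_self, map_one, Module.End.one_apply] at h7 ⊢
        conv_lhs => rw [h7, map_smul]
      · have h7 := h4 l
        simp only at h7 ⊢
        rw [← R_mul, (stSys_tv.comm i l j k (Ne.symm hli) hjk hl hik).eq, R_mul, h7, map_smul]
  have all : ∀ s : Finset (Fin 5), (∀ j ∈ s, j ≠ i ∧ j ≠ k) →
      Occ (fun j => R (tv i j)) fun t => if t ∈ s then !ε t else ε t := by
    intro s
    induction s using Finset.induction_on with
    | empty => intro _; simpa using hε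
    | insert j s hj ih =>
      intro hs
      have h4 := hs j (Finset.mem_insert_self _ _)
      have h5 := flip _ (ih fun t ht => hs t (Finset.mem_insert_of_mem ht)) (by
        rw [if_neg fun hk => (hs k (Finset.mem_insert_of_mem hk)).2 rfl, h2]) j h4.1 h4.2
      convert h5 using 1
      funext t
      by_cases ht : t = j
      · subst ht; simp [hj]
      · simp [ht]
  have := occ_card hV (fun j => R (tv i j))
    (Finset.univ.filter fun ε' => ε' i = true ∧ ε' k = false) fun ε' hε' => by
      have h4 := (Finset.mem_filter.1 hε').2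
      convert all (Finset.univ.filter fun t => ε' t ≠ ε t) (fun j hj => ?_) using 1
      · funext t
        by_cases ht : ε' t = ε t
        · simp [ht]
        · simp [ht, Bool.eq_not_of_ne ht]
      · have h5 := (Finset.mem_filter.1 hj).2
        constructor
        · rintro rfl; exact h5 (by rw [h4.1, h3])
        · rintro rfl; exact h5 (by rw [h4.2, h2])
  revert this
  clear * - hik
  revert i k
  decide +kernel

theorem caseB_zero (h0 : ¬ Occ (fun k => R (tt k)) fun _ => true) {k l : Fin 5} (hkl : k ≠ l)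
    (v : V) (hk : R (tt k) v = v) (hl : R (tt l) v = v) : v = 0 := by
  by_contra hv
  obtain ⟨ε, hε, h1⟩ := tt_weight R v hv
  have h2 : ε k = true := h1 k true (by simp [sg, hk])
  have h3 : ε l = true := h1 l true (by simp [sg, hl])
  rcases occ_cases R hε with rfl | h4 | h4
  · exact h0 hε
  · exact not_two R hV hε h4
  · clear * - hkl h2 h3 h4
    revert ε k l
    decide +kernel

theorem caseB_fix (h0 : ¬ Occ (fun k => R (tt k)) fun _ => true) {k i j : Fin 5} (hij : i ≠ j)
    (hi : k ≠ i) (hj : k ≠ j) (v : V) (hk : R (tt k) v = v) : R (tv i j) v = v := by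
  have : Nontrivial V := Module.nontrivial_of_finrank_pos (R := ℚ) (by omega)
  obtain ⟨v0, hv0⟩ := exists_ne (0 : V)
  obtain ⟨ε, hε, -⟩ := tt_weight R v0 hv0
  have h4 : cnt ε = 4 := by
    rcases occ_cases R hε with rfl | h4 | h4
    · exact absurd hε h0
    · exact absurd h4 (not_two R hV hε)
    · exact h4
  choose u hu hu' using fun m : Fin 5 => occ_cnt R hε (ε' := fun t => decide (t = m))
    (by rw [h4]; revert m; decide)
  have hli := occ_indep _ (fun (m t : Fin 5) => decide (t = m)) (by decide) u hu hu'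
  have hsp := hli.span_eq_top_of_card_eq_finrank (by simp [hV])
  have line : ∀ x : V, R (tt k) x = x → ∃ c : ℚ, x = c • u k := by
    intro x hx
    obtain ⟨c, hc⟩ := (Submodule.mem_span_range_iff_exists_fun ℚ).1 (hsp ▸ Submodule.mem_top (x := x))
    refine ⟨c k, ?_⟩
    have h5 : x + R (tt k) x = (2 : ℚ) • (c k • u k) := by
      rw [← hc, map_sum, ← Finset.sum_add_distrib, Finset.sum_eq_single k]
      · have := hu' k k
        simp only at this
        rw [map_smul, this]
        simp [sg, two_smul]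
      · intro m _ hm
        have := hu' m k
        simp only at this
        rw [map_smul, this]
        simp [sg, Ne.symm hm]
      · simp
    rw [hx, ← two_smul ℚ] at h5
    exact smul_right_injective V (by norm_num) h5
  have hku : R (tt k) (u k) = u k := by simpa [sg] using hu' k k
  have scal : ∀ p q, p ≠ q → k ≠ p → k ≠ q → ∃ c : ℚ, R (tv p q) (u k) = c • u k :=
    fun p q h1 h2 h3 => line _ (by rw [← R_mul, tt_tv_comm h1 h2 h3, R_mul, hku])
  obtain ⟨m, hm⟩ : ∃ m, m ≠ i ∧ m ≠ j ∧ m ≠ k := by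
    clear * -
    revert i j k
    decide
  obtain ⟨a, ha⟩ := scal i m hm.1.symm hi hm.2.2.symm
  obtain ⟨b, hb⟩ := scal m j hm.2.1 hm.2.2.symm hj
  have h6 := stSys_tv.tri i m j hm.1.symm hm.2.1 hij
  rw [mul_inv_eq_iff_eq_mul, mul_inv_eq_iff_eq_mul] at h6
  have h7 := congrArg (fun g => R g (u k)) h6
  have h8 := R_ne_zero R (tv i m * tv m j) (hu k)
  simp only [R_mul, ha, hb, map_smul, smul_smul] at h7 h8
  have h9 : b * a ≠ 0 := fun h => h8 (by rw [h, zero_smul])
  rw [mul_comm a b] at h7
  have h10 := smul_right_injective V h9 h7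
  obtain ⟨c, rfl⟩ := line v hk
  rw [map_smul, ← h10]

theorem dichotomy :
    ((∀ k v, R (tt k) v = v) ∧ ∀ i j, i ≠ j → ∀ v, R (tv i j) v = v) ∨
    ((∀ k l, k ≠ l → ∀ v, R (tt k) v = v → R (tt l) v = v → v = 0) ∧
      ∀ k i j, i ≠ j → k ≠ i → k ≠ j → ∀ v, R (tt k) v = v → R (tv i j) v = v) := by
  by_cases h0 : Occ (fun k => R (tt k)) fun _ => true
  · exact Or.inl ⟨caseA_tt R hV h0, fun i j h => caseA_tv R hV (caseA_tt R hV h0) i j h⟩
  · exact Or.inr ⟨fun k l h => caseB_zero R hV h0 h, fun k i j h1 h2 h3 =>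
      caseB_fix R hV h0 h1 h2 h3⟩

end Pool.Agent.H252Z.SLZ
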