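import Pool.Agent.H252Z.SLZ.St

/-! Silvester's lemma: norm-monotone factorisations in a group with Steinberg relations over the
integers. -/

set_option autoImplicit false

namespace Pool.Agent.H252Z.SLZ

variable {ι H : Type} [Group H] [Fintype ι] [DecidableEq ι]

def upd (v : ι → ℤ) (i j : ι) (a : ℤ) : ι → ℤ := Function.update v j (v j + a * v i)

omit [Fintype ι] in
theorem upd_apply (v : ι → ℤ) (i j : ι) (a : ℤ) (t : ι) :
    upd v i j a t = if t = j then v j + a * v i else v t := by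
  simp [upd, Function.update_apply]

def Nm (v : ι → ℤ) : ℕ := ∑ t, (v t).natAbs

theorem nm_upd (v : ι → ℤ) (i j : ι) (a : ℤ) :
    Nm (upd v i j a) + (v j).natAbs = Nm v + (v j + a * v i).natAbs := by
  unfold Nm
  rw [← Finset.add_sum_erase _ _ (Finset.mem_univ j),
    ← Finset.add_sum_erase _ (fun t => (v t).natAbs) (Finset.mem_univ j)]
  have : ∑ t ∈ Finset.univ.erase j, (upd v i j a t).natAbs =
      ∑ t ∈ Finset.univ.erase j, (v t).natAbs :=
    Finset.sum_congr rfl fun t ht => by rw [upd_apply, if_neg (Finset.ne_of_mem_erase ht)]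
  rw [this, upd_apply, if_pos rfl]
  ring

structure Act (y : ι → ι → H) (act : (ι → ℤ) → H → ι → ℤ) : Prop where
  one : ∀ v, act v 1 = v
  mul : ∀ v g h, act v (g * h) = act (act v g) h
  gen : ∀ v i j a, i ≠ j → act v (X y i j a) = upd v i j a
  zero : ∀ g, act 0 g = 0

def Gen (y : ι → ι → H) (T : Finset ι) (z : H) : Prop :=
  ∃ i j e, i ∈ T ∧ j ∈ T ∧ i ≠ j ∧ (e = 1 ∨ e = -1) ∧ z = X y i j e

def WGen (y : ι → ι → H) (T : Finset ι) : Set H :=
  {z | ∃ i j e, i ∈ T ∧ j ∈ T ∧ i ≠ j ∧ (e = 1 ∨ e = -1) ∧ z = Wl y i j e}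

def WT (y : ι → ι → H) (T : Finset ι) : Subgroup H := Subgroup.closure (WGen y T)

theorem sq_of_pm {e : ℤ} (he : e = 1 ∨ e = -1) : e * e = 1 := by
  rcases he with rfl | rfl <;> rfl

theorem pm_mul {e d : ℤ} (he : e = 1 ∨ e = -1) (hd : d = 1 ∨ d = -1) :
    e * d = 1 ∨ e * d = -1 := by
  rcases he with rfl | rfl <;> rcases hd with rfl | rfl <;> simp

theorem pm_neg {e : ℤ} (he : e = 1 ∨ e = -1) : -e = 1 ∨ -e = -1 := by
  rcases he with rfl | rfl <;> simp

variable {y : ι → ι → H} {act : (ι → ℤ) → H → ι → ℤ} {T : Finset ι}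

omit [Fintype ι] in
theorem gen_cj_w (hS : StSys y) {i j : ι} (hi : i ∈ T) (hj : j ∈ T) (hij : i ≠ j) {e : ℤ}
    (he : e = 1 ∨ e = -1) {z : H} (hz : Gen y T z) : Gen y T (cj (Wl y i j e) z) := by
  obtain ⟨k, l, d, hk, hl, hkl, hd, rfl⟩ := hz
  have he2 := sq_of_pm he
  by_cases h1 : k = i
  · subst h1
    by_cases h2 : l = j
    · subst h2
      exact ⟨l, k, -d, hl, hk, hkl.symm, pm_neg hd, hS.w_ij hij he2 d⟩
    · exact ⟨j, l, _, hj, hl, Ne.symm h2, pm_neg (pm_mul he hd),
        hS.w_ik hij (Ne.symm h2) hkl he2 d⟩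
  by_cases h2 : k = j
  · subst h2
    by_cases h3 : l = i
    · subst h3
      exact ⟨l, k, -d, hl, hk, hkl.symm, pm_neg hd, hS.w_ji hij he2 d⟩
    · exact ⟨i, l, _, hi, hl, Ne.symm h3, pm_mul he hd, hS.w_jk hij hkl (Ne.symm h3) he2 d⟩
  by_cases h3 : l = i
  · subst h3
    exact ⟨k, j, _, hk, hj, h2, pm_neg (pm_mul he hd),
      hS.w_ki hij (Ne.symm h2) (Ne.symm h1) he2 d⟩
  by_cases h4 : l = j
  · subst h4
    exact ⟨k, i, _, hk, hi, h1, pm_mul he hd, hS.w_kj hij (Ne.symm h2) (Ne.symm h1) he2 d⟩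
  · exact ⟨k, l, d, hk, hl, hkl, hd, hS.w_kl hij hkl h1 h2 h3 h4 e d⟩

omit [Fintype ι] in
theorem gen_cj_W (hS : StSys y) {u : H} (hu : u ∈ WT y T) :
    ∀ z, Gen y T z → Gen y T (cj u z) := by
  have key : (∀ z, Gen y T z → Gen y T (cj u z)) ∧ ∀ z, Gen y T z → Gen y T (cj u⁻¹ z) := by
    induction hu using Subgroup.closure_induction with
    | mem x hx =>
      obtain ⟨i, j, e, hi, hj, hij, he, rfl⟩ := hx
      refine ⟨fun z hz => gen_cj_w hS hi hj hij he hz, fun z hz => ?_⟩
      rw [Wl_inv]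
      exact gen_cj_w hS hi hj hij (pm_neg he) hz
    | one => simp [cj]
    | mul a b _ _ ha hb =>
      refine ⟨fun z hz => ?_, fun z hz => ?_⟩
      · rw [cj_mul_left]; exact ha.1 _ (hb.1 _ hz)
      · rw [mul_inv_rev, cj_mul_left]; exact hb.2 _ (ha.2 _ hz)
    | inv a _ ha => exact ⟨ha.2, by rw [inv_inv]; exact ha.1⟩
  exact key.1

theorem nm_W (hA : Act y act) {u : H} (hu : u ∈ WT y T) : ∀ v, Nm (act v u) = Nm v := by
  induction hu using Subgroup.closure_induction with
  | mem x hx =>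
    obtain ⟨i, j, e, -, -, hij, he, rfl⟩ := hx
    intro v
    rw [Wl, hA.mul, hA.mul, hA.gen _ _ _ _ hij, hA.gen _ _ _ _ hij.symm, hA.gen _ _ _ _ hij]
    have e1 := nm_upd v i j e
    have e2 := nm_upd (upd v i j e) j i (-e)
    have e3 := nm_upd (upd (upd v i j e) j i (-e)) i j e
    simp only [upd_apply, if_neg hij, if_neg hij.symm, if_true] at e2 e3
    rcases he with rfl | rfl <;> simp only [neg_neg, one_mul, neg_mul] at e1 e2 e3 ⊢ <;> omega
  | one => intro v; rw [hA.one]
  | mul a b _ _ ha hb => intro v; rw [hA.mul, hb, ha]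
  | inv a _ ha => intro v; rw [← ha (act v a⁻¹), ← hA.mul, inv_mul_cancel, hA.one]

inductive Mono (y : ι → ι → H) (act : (ι → ℤ) → H → ι → ℤ) (T : Finset ι) (β : ι → ℤ) : H → Prop
  | one : Mono y act T β 1
  | step (g z : H) : Mono y act T β g → Gen y T z → Nm (act β g) ≤ Nm (act β (g * z)) →
      Mono y act T β (g * z)

def InM (y : ι → ι → H) (act : (ι → ℤ) → H → ι → ℤ) (T : Finset ι) (β : ι → ℤ) (h : H) : Prop :=
  ∃ g w, Mono y act T β g ∧ w ∈ WT y T ∧ h = g * w

variable {β : ι → ℤ}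

theorem InM.mul_W {h u : H} (hh : InM y act T β h) (hu : u ∈ WT y T) :
    InM y act T β (h * u) := by
  obtain ⟨g, w, hg, hw, rfl⟩ := hh
  exact ⟨g, w * u, hg, mul_mem hw hu, mul_assoc _ _ _⟩

theorem Mono.inM {g : H} (hg : Mono y act T β g) : InM y act T β g :=
  ⟨g, 1, hg, one_mem _, (mul_one _).symm⟩

omit [Fintype ι] [DecidableEq ι] in
theorem wl_mem {i j : ι} (hi : i ∈ T) (hj : j ∈ T) (hij : i ≠ j) {e : ℤ} (he : e = 1 ∨ e = -1) :
    Wl y i j e ∈ WT y T := Subgroup.subset_closure ⟨i, j, e, hi, hj, hij, he, rfl⟩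

theorem peak (hS : StSys y) (hA : Act y act) (lam : ℕ)
    (hC : ∀ h, InM y act T β h → Nm (act β h) < lam → ∀ z, Gen y T z → InM y act T β (h * z))
    (g : H) (hg : InM y act T β g) (ih : ∀ z, Gen y T z → InM y act T β (g * z))
    (a z : H) (ha : Gen y T a) (hz : Gen y T z) (h1 : Nm (act β g) ≤ Nm (act β (g * a)))
    (h2 : Nm (act β (g * a * z)) < Nm (act β (g * a))) (h3 : Nm (act β (g * a)) ≤ lam) :
    InM y act T β (g * a * z) := by
  have two : ∀ z1 z2, Gen y T z1 → Gen y T z2 → Nm (act (act β g) z1) < lam →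
      InM y act T β (g * (z1 * z2)) := fun z1 z2 hz1 hz2 hn => by
    rw [← mul_assoc]
    exact hC _ (ih _ hz1) (by rwa [hA.mul]) _ hz2
  have three : ∀ z1 z2 z3, Gen y T z1 → Gen y T z2 → Gen y T z3 → Nm (act (act β g) z1) < lam →
      Nm (act (act (act β g) z1) z2) < lam → InM y act T β (g * (z1 * z2 * z3)) :=
    fun z1 z2 z3 hz1 hz2 hz3 hn hn' => by
      rw [← mul_assoc]
      exact hC _ (two _ _ hz1 hz2 hn) (by rwa [hA.mul, hA.mul]) _ hz3
  obtain ⟨i, j, d, hi, hj, hij, hd, rfl⟩ := ha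
  obtain ⟨k, l, e, hk, hl, hkl, he, rfl⟩ := hz
  have hd2 := sq_of_pm hd
  have he2 := sq_of_pm he
  simp only [hA.mul, hA.gen _ _ _ _ hij, hA.gen _ _ _ _ hkl] at h1 h2 h3
  generalize act β g = v at h1 h2 h3 two three
  have e1 := nm_upd v i j d
  have e2 := nm_upd (upd v i j d) k l e
  have G : ∀ {p q : ι} {c : ℤ}, p ∈ T → q ∈ T → p ≠ q → (c = 1 ∨ c = -1) → Gen y T (X y p q c) :=
    fun hp hq hpq hc => ⟨_, _, _, hp, hq, hpq, hc, rfl⟩
  rw [mul_assoc]
  by_cases hlj : l = j
  · subst hlj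
    by_cases hki : k = i
    · subst hki
      simp only [upd_apply, if_neg hij, if_true] at e2
      have hde : d + e = 0 := by
        rcases hd with rfl | rfl <;> rcases he with rfl | rfl <;>
          simp only [one_mul, neg_mul] at e1 e2 <;> omega
      rw [X_cancel _ _ hde, mul_one]
      exact hg
    · have hki' : i ≠ k := Ne.symm hki
      simp only [upd_apply, if_neg hkl, if_true] at e2
      have f1 := nm_upd v k l e
      have f2 := nm_upd v i k (d * e)
      have f3 := nm_upd (upd v i k (d * e)) k l e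
      have f4 := nm_upd v k i (e * d)
      have f5 := nm_upd (upd v k i (e * d)) i l d
      simp only [upd_apply, if_neg hkl.symm, if_neg hij.symm, if_true] at f3 f5
      have hcase : Nm (upd v k l e) < lam ∨
          (Nm (upd v i k (d * e)) < lam ∧ Nm (upd (upd v i k (d * e)) k l e) < lam) ∨
          (Nm (upd v k i (e * d)) < lam ∧ Nm (upd (upd v k i (e * d)) i l d) < lam) := by
        rcases hd with rfl | rfl <;> rcases he with rfl | rfl <;>
          simp only [one_mul, neg_mul, mul_one, mul_neg, neg_neg] at * <;> omega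
      rcases hcase with hc | hc | hc
      · rw [(hS.xcomm hij hkl hkl.symm hij d e).eq]
        exact two _ _ (G hk hl hkl he) (G hi hl hij hd) (by rwa [hA.gen _ _ _ _ hkl])
      · have h := hS.conj1 hki' hkl hij (d * e) e
        rw [mul_assoc d, he2, mul_one, cj, ← X_neg] at h
        rw [← h]
        refine three _ _ _ (G hi hk hki' (pm_mul hd he)) (G hk hl hkl he)
          (G hi hk hki' (pm_neg (pm_mul hd he))) ?_ ?_
        · rw [hA.gen _ _ _ _ hki']; exact hc.1
        · rw [hA.gen _ _ _ _ hki', hA.gen _ _ _ _ hkl]; exact hc.2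
      · have h := hS.conj1 hki hij hkl (e * d) d
        rw [mul_assoc e, hd2, mul_one, cj, ← X_neg] at h
        rw [(hS.xcomm hij hkl hkl.symm hij d e).eq, ← h]
        refine three _ _ _ (G hk hi hki (pm_mul he hd)) (G hi hl hij hd)
          (G hk hi hki (pm_neg (pm_mul he hd))) ?_ ?_
        · rw [hA.gen _ _ _ _ hki]; exact hc.1
        · rw [hA.gen _ _ _ _ hki, hA.gen _ _ _ _ hij]; exact hc.2
  have hjl : j ≠ l := Ne.symm hlj
  by_cases hkj : k = j
  · subst hkj
    by_cases hli : l = i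
    · subst hli
      simp only [upd_apply, if_neg hij, if_true] at e2
      have hde : e = -d := by
        rcases hd with rfl | rfl <;> rcases he with rfl | rfl <;>
          simp only [one_mul, neg_mul, neg_neg] at e1 e2 ⊢ <;> omega
      subst hde
      have h : X y l k d * X y k l (-d) = cj (Wl y l k d) (X y l k (-d)) * Wl y l k d := by
        simp [cj, Wl, X_neg, mul_assoc]
      rw [h, ← mul_assoc]
      exact (ih _ (gen_cj_w hS hi hj hij hd (G hi hj hij (pm_neg hd)))).mul_W (wl_mem hi hj hij hd)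
    · have hil : i ≠ l := Ne.symm hli
      simp only [upd_apply, if_neg hlj, if_true] at e2
      have f1 := nm_upd v k l e
      have f2 := nm_upd (upd v k l e) i l (d * e)
      have f3 := nm_upd v k i d
      have f4 := nm_upd (upd v k i d) i l (d * e)
      simp only [upd_apply, if_neg hil, if_neg hli, if_true] at f2 f4
      have hcase : (Nm (upd v k l e) < lam ∧ Nm (upd (upd v k l e) i l (d * e)) < lam) ∨
          (Nm (upd v k i d) < lam ∧ Nm (upd (upd v k i d) i l (d * e)) < lam) := by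
        rcases hd with rfl | rfl <;> rcases he with rfl | rfl <;>
          simp only [one_mul, neg_mul, mul_one, mul_neg, neg_neg] at * <;> omega
      rcases hcase with hc | hc
      · have h := hS.conj1 hij hkl hil d e
        rw [cj, mul_inv_eq_iff_eq_mul, (hS.xcomm hil hkl hlj hil _ _).eq] at h
        rw [h]
        refine three _ _ _ (G hk hl hkl he) (G hi hl hil (pm_mul hd he)) (G hi hj hij hd) ?_ ?_
        · rw [hA.gen _ _ _ _ hkl]; exact hc.1
        · rw [hA.gen _ _ _ _ hkl, hA.gen _ _ _ _ hil]; exact hc.2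
      · have h := hS.w_jk hij hkl hil hd2 e
        rw [cj, mul_inv_eq_iff_eq_mul] at h
        have h' : X y i k d * X y k l e =
            X y k i d * X y i l (d * e) * X y i k (-d) * Wl y i k d := by
          conv_lhs => rw [hS.x_eq hij hd2, mul_assoc, h, ← mul_assoc, mul_assoc (X y k i d),
            (hS.xcomm hij hil hij.symm hil _ _).eq, ← mul_assoc]
        rw [h', ← mul_assoc]
        refine InM.mul_W (three _ _ _ (G hk hi hij.symm hd) (G hi hl hil (pm_mul hd he))
          (G hi hj hij (pm_neg hd)) ?_ ?_) (wl_mem hi hj hij hd)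
        · rw [hA.gen _ _ _ _ hij.symm]; exact hc.1
        · rw [hA.gen _ _ _ _ hij.symm, hA.gen _ _ _ _ hil]; exact hc.2
  by_cases hli : l = i
  · subst hli
    simp only [upd_apply, if_neg hij, if_neg hkj] at e2
    have f1 := nm_upd v k l e
    have f2 := nm_upd (upd v k l e) l j d
    have f3 := nm_upd v l k e
    have f4 := nm_upd (upd v l k e) l j d
    simp only [upd_apply, if_neg hjl, if_neg (Ne.symm hkj), if_neg hkl.symm, if_true] at f2 f4
    have hcase : (Nm (upd v k l e) < lam ∧ Nm (upd (upd v k l e) l j d) < lam) ∨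
        (Nm (upd v l k e) < lam ∧ Nm (upd (upd v l k e) l j d) < lam) := by
      rcases hd with rfl | rfl <;> rcases he with rfl | rfl <;>
        simp only [one_mul, neg_mul, mul_one, mul_neg, neg_neg] at * <;> omega
    rcases hcase with hc | hc
    · have h := hS.conj2 hkl hij hkj e d
      rw [cj, mul_inv_eq_iff_eq_mul, (hS.xcomm hkj hkl (Ne.symm hkj) hkl _ _).eq, mul_assoc,
        (hS.xcomm hkj hij hjl hkj _ _).eq, ← mul_assoc] at h
      rw [h]
      refine three _ _ _ (G hk hl hkl he) (G hi hj hij hd) (G hk hj hkj (pm_neg (pm_mul he hd))) ?_ ?_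
      · rw [hA.gen _ _ _ _ hkl]; exact hc.1
      · rw [hA.gen _ _ _ _ hkl, hA.gen _ _ _ _ hij]; exact hc.2
    · have h' : X y l j d * X y k l e =
          X y l k e * X y l j d * X y k l (-e) * Wl y k l e := by
        conv_lhs => rw [hS.x_eq hkl he2, ← mul_assoc, ← mul_assoc,
          (hS.xcomm hij hkl.symm hjl hkl.symm _ _).eq]
      rw [h', ← mul_assoc]
      refine InM.mul_W (three _ _ _ (G hl hk hkl.symm he) (G hi hj hij hd)
        (G hk hl hkl (pm_neg he)) ?_ ?_) (wl_mem hk hl hkl he)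
      · rw [hA.gen _ _ _ _ hkl.symm]; exact hc.1
      · rw [hA.gen _ _ _ _ hkl.symm, hA.gen _ _ _ _ hij]; exact hc.2
  · have hil : i ≠ l := Ne.symm hli
    simp only [upd_apply, if_neg hlj, if_neg hkj] at e2
    have f1 := nm_upd v k l e
    rw [(hS.xcomm hij hkl (Ne.symm hkj) hil d e).eq]
    refine two _ _ (G hk hl hkl he) (G hi hj hij hd) ?_
    rw [hA.gen _ _ _ _ hkl]
    omega

theorem nm_pos (hA : Act y act) (hβ : β ≠ 0) (g : H) : 0 < Nm (act β g) := by
  rcases Nat.eq_zero_or_pos (Nm (act β g)) with h | h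
  · exfalso
    apply hβ
    have h0 : act β g = 0 := by
      funext t
      have := (Finset.sum_eq_zero_iff.1 h) t (Finset.mem_univ t)
      simpa using this
    rw [← hA.one β, ← mul_inv_cancel g, hA.mul, h0, hA.zero]
  · exact h

theorem closed (hS : StSys y) (hA : Act y act) (hβ : Nm β = 1) (lam : ℕ) :
    ∀ h, InM y act T β h → Nm (act β h) < lam → ∀ z, Gen y T z → InM y act T β (h * z) := by
  have hβ0 : β ≠ 0 := by
    rintro rfl
    simp [Nm] at hβ
  induction lam with
  | zero => intro h _ h0; omega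
  | succ lam hC =>
    have inner : ∀ g, Mono y act T β g → Nm (act β g) ≤ lam → ∀ z, Gen y T z →
        InM y act T β (g * z) := by
      intro g hg
      induction hg with
      | one =>
        intro _ z hz
        refine (Mono.step 1 z Mono.one hz ?_).inM
        rw [hA.one, hβ]
        exact nm_pos hA hβ0 _
      | step g a hg ha hle ih =>
        intro hl z hz
        by_cases hm : Nm (act β (g * a)) ≤ Nm (act β (g * a * z))
        · exact (Mono.step _ z (Mono.step g a hg ha hle) hz hm).inM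
        · exact peak hS hA lam hC g hg.inM (ih (hle.trans hl)) a z ha hz hle (not_le.1 hm) hl
    rintro h ⟨g, w, hg, hw, rfl⟩ hn z hz
    rw [hA.mul, nm_W hA hw] at hn
    have h1 : g * w * z = g * cj w z * w := by simp [cj, mul_assoc]
    rw [h1]
    exact (inner g hg (by omega) _ (gen_cj_W hS hw z hz)).mul_W hw

def ST (y : ι → ι → H) (T : Finset ι) : Subgroup H := Subgroup.closure {z | Gen y T z}

theorem silvester (hS : StSys y) (hA : Act y act) (hβ : Nm β = 1) {h : H} (hh : h ∈ ST y T) :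
    InM y act T β h := by
  induction hh using Subgroup.closure_induction_right with
  | one => exact Mono.one.inM
  | mul_right x _ z hz ih => exact closed hS hA hβ _ x ih (Nat.lt_succ_self _) z hz
  | mul_inv_cancel x _ z hz ih =>
    obtain ⟨i, j, e, hi, hj, hij, he, rfl⟩ := hz
    rw [← X_neg]
    exact closed hS hA hβ _ x ih (Nat.lt_succ_self _) _ ⟨i, j, -e, hi, hj, hij, pm_neg he, rfl⟩

end Pool.Agent.H252Z.SLZ
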