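import Mathlib

/-! Steinberg relations over the integers: conjugation formulas. -/

set_option autoImplicit false

namespace Pool.Agent.H252Z.SLZ

variable {ι H : Type} [Group H]

structure StSys (y : ι → ι → H) : Prop where
  comm : ∀ i j k l, i ≠ j → k ≠ l → j ≠ k → i ≠ l → Commute (y i j) (y k l)
  tri : ∀ i j k, i ≠ j → j ≠ k → i ≠ k → y i j * y j k * (y i j)⁻¹ * (y j k)⁻¹ = y i k
  four : ∀ i j, i ≠ j → (y i j * (y j i)⁻¹ * y i j) ^ 4 = 1
  third : ∀ i j : ι, ∃ k, k ≠ i ∧ k ≠ j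

def X (y : ι → ι → H) (i j : ι) (a : ℤ) : H := y i j ^ a

def Wl (y : ι → ι → H) (i j : ι) (e : ℤ) : H := X y i j e * X y j i (-e) * X y i j e

def cj (g h : H) : H := g * h * g⁻¹

theorem cj_mul_left (g g' h : H) : cj (g * g') h = cj g (cj g' h) := by simp [cj, mul_assoc]

theorem cj_mul (g h h' : H) : cj g (h * h') = cj g h * cj g h' := by simp [cj, mul_assoc]

theorem cj_inv (g h : H) : cj g h⁻¹ = (cj g h)⁻¹ := by simp [cj, mul_assoc]

theorem cj_of_commute {g h : H} (hc : Commute g h) : cj g h = h := by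
  rw [cj, hc.eq, mul_inv_cancel_right]

theorem cj_zpow (g h : H) (n : ℤ) : cj g (h ^ n) = cj g h ^ n := by
  simp [cj, conj_zpow]

variable {y : ι → ι → H}

theorem X_add (i j : ι) (a b : ℤ) : X y i j (a + b) = X y i j a * X y i j b := zpow_add _ _ _

theorem X_neg (i j : ι) (a : ℤ) : X y i j (-a) = (X y i j a)⁻¹ := zpow_neg _ _

theorem X_zero (i j : ι) : X y i j 0 = 1 := zpow_zero _

theorem X_cancel (i j : ι) {a b : ℤ} (h : a + b = 0) : X y i j a * X y i j b = 1 := by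
  rw [← X_add, h, X_zero]

theorem Wl_inv (i j : ι) (e : ℤ) : (Wl y i j e)⁻¹ = Wl y i j (-e) := by
  simp [Wl, X_neg, mul_assoc]

namespace StSys

variable (hS : StSys y)
include hS

theorem xcomm {i j k l : ι} (h1 : i ≠ j) (h2 : k ≠ l) (h3 : j ≠ k) (h4 : i ≠ l) (a b : ℤ) :
    Commute (X y i j a) (X y k l b) := (hS.comm i j k l h1 h2 h3 h4).zpow_zpow a b

theorem conj1 {i j k : ι} (h1 : i ≠ j) (h2 : j ≠ k) (h3 : i ≠ k) (a b : ℤ) :
    cj (X y i j a) (X y j k b) = X y i k (a * b) * X y j k b := by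
  have hc1 : Commute (y i j) (y i k) := hS.comm i j i k h1 h3 h1.symm h3
  have hc2 : Commute (y i k) (y j k) := hS.comm i k j k h3 h2 h2.symm h3
  have h0 : cj (y i j) (y j k) = y i k * y j k := by
    rw [← hS.tri i j k h1 h2 h3]; simp [cj]
  have h0' : cj (y i j)⁻¹ (y j k) = (y i k)⁻¹ * y j k := by
    have h5 : cj (y i j)⁻¹ (cj (y i j) (y j k)) = y j k := by simp [cj, mul_assoc]
    rw [h0, cj_mul, cj_of_commute hc1.inv_left] at h5
    rw [← h5, inv_mul_cancel_left, h5]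
  have key : ∀ a : ℤ, cj (y i j ^ a) (y j k) = y i k ^ a * y j k := by
    intro a
    induction a using Int.induction_on with
    | zero => simp [cj]
    | succ n ih =>
      rw [zpow_add_one, cj_mul_left, h0, cj_mul, ih, cj_of_commute (hc1.zpow_left _), zpow_add_one,
        ← mul_assoc, ((Commute.refl (y i k)).zpow_right _).eq]
    | pred n ih =>
      rw [zpow_sub_one, cj_mul_left, h0', cj_mul, ih, cj_of_commute (hc1.zpow_left _).inv_right,
        zpow_sub_one, ← mul_assoc, ((Commute.refl (y i k)).zpow_right _).inv_left.eq]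
  unfold X
  rw [cj_zpow, key, (hc2.zpow_left a).mul_zpow, ← zpow_mul]

theorem conj2 {i j k : ι} (h1 : i ≠ j) (h2 : j ≠ k) (h3 : i ≠ k) (a b : ℤ) :
    cj (X y j k b) (X y i j a) = X y i k (-(a * b)) * X y i j a := by
  have h := hS.conj1 h1 h2 h3 a b
  unfold cj at h ⊢
  rw [X_neg, eq_inv_mul_iff_mul_eq, ← mul_assoc, ← mul_assoc, ← h]
  simp [mul_assoc]

theorem w_ik {i j k : ι} (h1 : i ≠ j) (h2 : j ≠ k) (h3 : i ≠ k) {e : ℤ} (he : e * e = 1) (t : ℤ) :
    cj (Wl y i j e) (X y i k t) = X y j k (-(e * t)) := by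
  rw [Wl, cj_mul_left, cj_mul_left, cj_of_commute (hS.xcomm h1 h3 h1.symm h3 e t),
    hS.conj1 h1.symm h3 h2, cj_mul, hS.conj1 h1 h2 h3,
    cj_of_commute (hS.xcomm h1 h3 h1.symm h3 e t), (hS.xcomm h3 h2 h2.symm h3 _ _).eq, mul_assoc,
    X_cancel, mul_one, neg_mul]
  linear_combination (-t) * he

theorem w_jk {i j k : ι} (h1 : i ≠ j) (h2 : j ≠ k) (h3 : i ≠ k) {e : ℤ} (he : e * e = 1) (t : ℤ) :
    cj (Wl y i j e) (X y j k t) = X y i k (e * t) := by
  rw [Wl, cj_mul_left, cj_mul_left, hS.conj1 h1 h2 h3, cj_mul, hS.conj1 h1.symm h3 h2,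
    cj_of_commute (hS.xcomm h1.symm h2 h1 h2 _ t), (hS.xcomm h2 h3 h3.symm h2 _ _).eq, mul_assoc,
    X_cancel, mul_one, cj_of_commute (hS.xcomm h1 h3 h1.symm h3 e _)]
  linear_combination (-t) * he

theorem w_ki {i j k : ι} (h1 : i ≠ j) (h2 : j ≠ k) (h3 : i ≠ k) {e : ℤ} (he : e * e = 1) (t : ℤ) :
    cj (Wl y i j e) (X y k i t) = X y k j (-(e * t)) := by
  rw [Wl, cj_mul_left, cj_mul_left, hS.conj2 h3.symm h1 h2.symm, cj_mul,
    hS.conj2 h2.symm h1.symm h3.symm, cj_of_commute (hS.xcomm h1.symm h3.symm h3 h1.symm _ t),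
    (hS.xcomm h3.symm h2.symm h3 h2.symm _ _).eq, mul_assoc, X_cancel, mul_one,
    cj_of_commute (hS.xcomm h1 h2.symm h2 h1 e _), mul_comm t e]
  linear_combination (-t) * he

theorem w_kj {i j k : ι} (h1 : i ≠ j) (h2 : j ≠ k) (h3 : i ≠ k) {e : ℤ} (he : e * e = 1) (t : ℤ) :
    cj (Wl y i j e) (X y k j t) = X y k i (e * t) := by
  rw [Wl, cj_mul_left, cj_mul_left, cj_of_commute (hS.xcomm h1 h2.symm h2 h1 e t),
    hS.conj2 h2.symm h1.symm h3.symm, cj_mul, hS.conj2 h3.symm h1 h2.symm,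
    cj_of_commute (hS.xcomm h1 h2.symm h2 h1 e t), (hS.xcomm h2.symm h3.symm h2 h3.symm _ _).eq,
    mul_assoc, X_cancel, mul_one]
  · congr 1; ring
  · linear_combination (-t) * he

theorem w_ij {i j : ι} (h1 : i ≠ j) {e : ℤ} (he : e * e = 1) (t : ℤ) :
    cj (Wl y i j e) (X y i j t) = X y j i (-t) := by
  obtain ⟨k, hki, hkj⟩ := hS.third i j
  have e1 : X y i j t = cj (X y i k t) (X y k j 1) * (X y k j 1)⁻¹ := by
    rw [hS.conj1 hki.symm hkj h1, mul_one, mul_inv_cancel_right]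
  have e2 : X y j i (-t) = cj (X y j k (-(e * t))) (X y k i (e * 1)) * (X y k i (e * 1))⁻¹ := by
    rw [hS.conj1 hkj.symm hki h1.symm, mul_inv_cancel_right]
    congr 1
    linear_combination t * he
  rw [e1, e2, ← hS.w_ik h1 hkj.symm hki.symm he, ← hS.w_kj h1 hkj.symm hki.symm he]
  simp [cj, mul_assoc]

theorem w_ji {i j : ι} (h1 : i ≠ j) {e : ℤ} (he : e * e = 1) (t : ℤ) :
    cj (Wl y i j e) (X y j i t) = X y i j (-t) := by
  obtain ⟨k, hki, hkj⟩ := hS.third i j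
  have e1 : X y j i t = cj (X y j k t) (X y k i 1) * (X y k i 1)⁻¹ := by
    rw [hS.conj1 hkj.symm hki h1.symm, mul_one, mul_inv_cancel_right]
  have e2 : X y i j (-t) = cj (X y i k (e * t)) (X y k j (-(e * 1))) * (X y k j (-(e * 1)))⁻¹ := by
    rw [hS.conj1 hki.symm hkj h1, mul_inv_cancel_right]
    congr 1
    linear_combination t * he
  rw [e1, e2, ← hS.w_jk h1 hkj.symm hki.symm he, ← hS.w_ki h1 hkj.symm hki.symm he]
  simp [cj, mul_assoc]

theorem w_kl {i j k l : ι} (h1 : i ≠ j) (h2 : k ≠ l) (h3 : k ≠ i) (h4 : k ≠ j) (h5 : l ≠ i)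
    (h6 : l ≠ j) (e t : ℤ) : cj (Wl y i j e) (X y k l t) = X y k l t := by
  apply cj_of_commute
  exact ((hS.xcomm h1 h2 h4.symm h5.symm _ _).mul_left
    (hS.xcomm h1.symm h2 h3.symm h6.symm _ _)).mul_left (hS.xcomm h1 h2 h4.symm h5.symm _ _)

theorem braid {i j : ι} (h1 : i ≠ j) {e : ℤ} (he : e * e = 1) : Wl y j i (-e) = Wl y i j e := by
  have h := hS.w_ji h1 he (-e)
  rw [neg_neg, cj, mul_inv_eq_iff_eq_mul] at h
  unfold Wl at h ⊢
  rw [neg_neg]
  apply mul_left_cancel (a := X y i j e)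
  rw [← h]
  simp [mul_assoc]

theorem w_four {i j : ι} (h1 : i ≠ j) {e : ℤ} (he : e = 1 ∨ e = -1) : Wl y i j e ^ 4 = 1 := by
  have h : Wl y i j 1 ^ 4 = 1 := by simpa [Wl, X] using hS.four i j h1
  rcases he with rfl | rfl
  · exact h
  · rw [← Wl_inv, inv_pow, h, inv_one]

/-- `x_ij(e) = x_ji(e) x_ij(-e) w`. -/
theorem x_eq {i j : ι} (h1 : i ≠ j) {e : ℤ} (he : e * e = 1) :
    X y i j e = X y j i e * X y i j (-e) * Wl y i j e := by
  have h := hS.w_ji h1 he e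
  rw [cj, mul_inv_eq_iff_eq_mul] at h
  rw [mul_assoc, ← h, ← hS.braid h1 he, Wl, neg_neg]
  simp [X_neg, mul_assoc]

end StSys

end Pool.Agent.H252Z.SLZ
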